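import Pool.Agent.Run7.h702.DV.Fac

set_option autoImplicit false

namespace Run7.h702.DV

open Finset

/-- `m = d e` for some `d`, `e` such that some `γ m + β d + α e + c` with small coefficients is bad -/
def FacBad (Bad : ℕ → Prop) (K m : ℕ) : Prop :=
  ∃ d e : ℕ, d * e = m ∧ ∃ α β γ c : ℤ, |α| ≤ K ∧ |β| ≤ K ∧ |γ| ≤ K ∧ |c| ≤ K ∧ γ ≠ 0 ∧
    γ * d + α ≠ 0 ∧ γ * e + β ≠ 0 ∧ 0 < val α β γ c d e ∧ Bad (val α β γ c d e).toNat

theorem val_swap (α β γ c : ℤ) (d e : ℕ) : val α β γ c d e = val β α γ c e d := by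
  unfold val
  ring

/-- the box of coefficients -/
noncomputable def box (K : ℕ) : Finset (ℤ × ℤ × ℤ × ℤ) :=
  Icc (-(K : ℤ)) K ×ˢ Icc (-(K : ℤ)) K ×ˢ Icc (-(K : ℤ)) K ×ˢ Icc (-(K : ℤ)) K

theorem box_card (K : ℕ) : (box K).card = (2 * K + 1) ^ 4 := by
  unfold box
  simp only [card_product, Int.card_Icc]
  have : ((K : ℤ) + 1 - -(K : ℤ)).toNat = 2 * K + 1 := by omega
  rw [this]
  ring

open Classical in
/-- the set of `e`, if the conditions on the coefficients are satisfied -/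
noncomputable def Ek (Bad : ℕ → Prop) (N : ℕ) (κ : ℤ × ℤ × ℤ × ℤ) (d : ℕ) : Finset ℕ :=
  if κ.2.2.1 ≠ 0 ∧ κ.2.2.1 * d + κ.1 ≠ 0 then Es Bad N κ.1 κ.2.1 κ.2.2.1 κ.2.2.2 d else ∅

open Classical in
theorem fac_union (Bad : ℕ → Prop) (N K : ℕ) :
    ((Icc 1 N).filter (FacBad Bad K)).card ≤
      ∑ κ ∈ box K, ∑ d ∈ Icc 1 (Nat.sqrt N), (Ek Bad N κ d).card := by
  classical
  have hsub : (Icc 1 N).filter (FacBad Bad K) ⊆
      (box K).biUnion (fun κ => (Icc 1 (Nat.sqrt N)).biUnion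
        (fun d => (Ek Bad N κ d).image (fun e => d * e))) := by
    intro m hm
    rw [mem_filter, mem_Icc] at hm
    obtain ⟨⟨hm1, hmN⟩, d, e, hde, α, β, γ, c, hα, hβ, hγ, hc, hγ0, hda, heb, hv, hbad⟩ := hm
    have hd1 : 1 ≤ d := by
      rcases Nat.eq_zero_or_pos d with h | h
      · rw [h, zero_mul] at hde
        omega
      · exact h
    have he1 : 1 ≤ e := by
      rcases Nat.eq_zero_or_pos e with h | h
      · rw [h, mul_zero] at hde
        omega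
      · exact h
    have key : ∀ (d e : ℕ) (α β : ℤ), 1 ≤ d → 1 ≤ e → d * e = m → |α| ≤ K → |β| ≤ K → γ * d + α ≠ 0 →
        0 < val α β γ c d e → Bad (val α β γ c d e).toNat → d ≤ e →
        m ∈ (box K).biUnion (fun κ => (Icc 1 (Nat.sqrt N)).biUnion
          (fun d => (Ek Bad N κ d).image (fun e => d * e))) := by
      intro d e α β hd1 he1 hde hα hβ hda hv hbad hle
      rw [mem_biUnion]
      refine ⟨(α, β, γ, c), ?_, ?_⟩
      · unfold box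
        simp only [mem_product, mem_Icc]
        exact ⟨abs_le.1 hα, abs_le.1 hβ, abs_le.1 hγ, abs_le.1 hc⟩
      · rw [mem_biUnion]
        refine ⟨d, ?_, ?_⟩
        · rw [mem_Icc]
          refine ⟨hd1, Nat.le_sqrt.2 ?_⟩
          calc d * d ≤ d * e := Nat.mul_le_mul_left _ hle
            _ ≤ N := by omega
        · rw [mem_image]
          refine ⟨e, ?_, hde⟩
          unfold Ek
          rw [if_pos ⟨hγ0, hda⟩]
          unfold Es
          rw [mem_filter, mem_Icc]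
          refine ⟨⟨he1, ?_⟩, hv, hbad⟩
          rw [Nat.le_div_iff_mul_le (by omega), mul_comm]
          omega
    rcases le_total d e with h | h
    · exact key d e α β hd1 he1 hde hα hβ hda hv hbad h
    · refine key e d β α he1 hd1 (by rw [mul_comm]; exact hde) hβ hα heb ?_ ?_ h
      · rw [← val_swap]; exact hv
      · rw [← val_swap]; exact hbad
  refine (card_le_card hsub).trans (card_biUnion_le.trans (sum_le_sum fun κ _ => ?_))
  exact card_biUnion_le.trans (sum_le_sum fun d _ => card_image_le)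

/-- the irregular `d` -/
theorem irregular_sum (N K δ : ℕ) (γ α : ℤ) (hK : 1 ≤ K) (hδ : 1 ≤ δ) (hα : |α| ≤ K) (hγ : |γ| ≤ K)
    (hγ0 : γ ≠ 0) (S : Finset ℕ) (hS : S ⊆ Icc 1 N) (h1 : ∀ d ∈ S, (δ : ℤ) ∣ γ * d + α)
    (h2 : ∀ d ∈ S, γ * d + α ≠ 0) :
    ∑ d ∈ S, (1 : ℝ) / d ≤ (2 * K : ℝ) / δ * Hm (2 * K * N) := by
  apply sparse_sum S N K δ hK hδ
  · intro u hu
    exact (mem_Icc.1 (hS hu)).2
  · intro u hu
    have hu1 := (mem_Icc.1 (hS hu)).1
    have h3 : δ ≤ (γ * u + α).natAbs :=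
      Nat.le_of_dvd (Int.natAbs_pos.2 (h2 u hu)) (Int.natCast_dvd.1 (h1 u hu))
    exact h3.trans (natAbs_le hα hγ hu1)
  · intro u hu v hv huv
    have h3 : (δ : ℤ) ∣ γ * ((v - u : ℕ) : ℤ) := by
      have h4 := dvd_sub (h1 v hv) (h1 u hu)
      have h5 : γ * v + α - (γ * u + α) = γ * ((v - u : ℕ) : ℤ) := by
        rw [Nat.cast_sub huv.le]
        ring
      rw [h5] at h4
      exact h4
    have h4 : γ * ((v - u : ℕ) : ℤ) ≠ 0 := mul_ne_zero hγ0 (by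
      have : v - u ≠ 0 := by omega
      exact_mod_cast this)
    have h5 : δ ≤ (γ * ((v - u : ℕ) : ℤ)).natAbs :=
      Nat.le_of_dvd (Int.natAbs_pos.2 h4) (Int.natCast_dvd.1 h3)
    rw [Int.natAbs_mul, Int.natAbs_natCast] at h5
    refine h5.trans (Nat.mul_le_mul_right _ ?_)
    have h6 : ((γ.natAbs : ℕ) : ℤ) ≤ K := by
      rw [Int.natCast_natAbs]
      exact hγ
    exact_mod_cast h6

/-- the sum over `d` for given coefficients -/
theorem Ek_sum (Bad : ℕ → Prop) (N j K A : ℕ) (D : Finset ℕ) (κ : ℤ × ℤ × ℤ × ℤ) (hκ : κ ∈ box K)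
    (hK : 1 ≤ K) (hj : 4 * K * N ≤ 2 ^ j) (hj1 : 1 ≤ j)
    (hq : ∀ d ∈ Icc 1 (Nat.sqrt N), (2 * K * d) ^ 5 ≤ 2 ^ (3 * j))
    (hD1 : ∀ δ ∈ D, 1 ≤ δ) (hD : ∑ δ ∈ D, (1 : ℝ) / δ ≤ 1 / (j : ℝ) ^ A)
    (P1 : ∀ q : ℕ, 1 ≤ q → q ^ 5 ≤ 2 ^ (3 * j) → ∀ a : ℤ, Int.gcd a q ≤ 2 * K ^ 2 →
      (cnt Bad j q a : ℝ) ≤ 2 ^ j / (q * (j : ℝ) ^ A))
    (P2 : ∀ q : ℕ, 1 ≤ q → q ^ 5 ≤ 2 ^ (3 * j) → (∀ δ ∈ D, ¬ δ ∣ q) →
      (cnt Bad j q 0 : ℝ) ≤ 2 ^ j / (q * (j : ℝ) ^ A)) :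
    ∑ d ∈ Icc 1 (Nat.sqrt N), ((Ek Bad N κ d).card : ℝ) ≤
      (2 ^ j + N) * (2 * K) / (j : ℝ) ^ A * Hm (2 * K * N) := by
  classical
  obtain ⟨α, β, γ, c⟩ := κ
  unfold box at hκ
  simp only [mem_product, mem_Icc] at hκ
  obtain ⟨hα, hβ, hγ, hc⟩ := hκ
  replace hα : |α| ≤ K := abs_le.2 hα
  replace hβ : |β| ≤ K := abs_le.2 hβ
  replace hγ : |γ| ≤ K := abs_le.2 hγ
  replace hc : |c| ≤ K := abs_le.2 hc
  have hj0 : (0 : ℝ) < j := by exact_mod_cast hj1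
  have hHm := Hm_nonneg (2 * K * N)
  have hR : 0 ≤ (2 ^ j + (N : ℝ)) * (2 * K) / (j : ℝ) ^ A * Hm (2 * K * N) := by positivity
  by_cases hγ0 : γ = 0
  · have : ∀ d, Ek Bad N (α, β, γ, c) d = ∅ := by
      intro d
      unfold Ek
      rw [if_neg]
      simp [hγ0]
    simp only [this, card_empty, Nat.cast_zero, sum_const_zero]
    exact hR
  -- the reduced coefficients
  obtain ⟨g, hg⟩ : ∃ g : ℕ, g = Int.gcd γ α := ⟨_, rfl⟩
  have hg0 : 0 < g := by rw [hg]; exact Int.gcd_pos_of_ne_zero_left _ hγ0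
  have hg0' : (0 : ℤ) < g := by exact_mod_cast hg0
  obtain ⟨γ', hγ'⟩ : (g : ℤ) ∣ γ := by rw [hg]; exact Int.gcd_dvd_left ..
  obtain ⟨α', hα'⟩ : (g : ℤ) ∣ α := by rw [hg]; exact Int.gcd_dvd_right ..
  have e1 : γ / Int.gcd γ α = γ' := by
    rw [← hg]
    conv_lhs => rw [hγ']
    rw [Int.mul_ediv_cancel_left _ hg0'.ne']
  have e2 : α / Int.gcd γ α = α' := by
    rw [← hg]
    conv_lhs => rw [hα']
    rw [Int.mul_ediv_cancel_left _ hg0'.ne']
  have hγ'0 : γ' ≠ 0 := by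
    rintro rfl
    exact hγ0 (by rw [hγ', mul_zero])
  have hab : ∀ {z z' : ℤ}, z = g * z' → |z| ≤ K → |z'| ≤ K := by
    intro z z' hz h
    refine le_trans ?_ h
    rw [hz, abs_mul, Nat.abs_cast]
    exact le_mul_of_one_le_left (abs_nonneg _) (by omega)
  have hα'K := hab hα' hα
  have hγ'K := hab hγ' hγ
  let S : ℕ → Finset ℕ := fun δ => (Icc 1 (Nat.sqrt N)).filter
    (fun d => (δ : ℤ) ∣ γ' * d + α' ∧ γ' * d + α' ≠ 0)
  have hone : ∀ d ∈ Icc 1 (Nat.sqrt N), ((Ek Bad N (α, β, γ, c) d).card : ℝ) ≤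
      2 ^ j * (2 * K) / (j : ℝ) ^ A * (1 / d) + ∑ δ ∈ D, (if d ∈ S δ then (N : ℝ) * (1 / d) else 0) := by
    intro d hd
    have hd1 := (mem_Icc.1 hd).1
    have hd0 : (0 : ℝ) < d := by exact_mod_cast hd1
    have hs0 : 0 ≤ ∑ δ ∈ D, (if d ∈ S δ then (N : ℝ) * (1 / d) else 0) :=
      sum_nonneg fun δ _ => by split_ifs <;> positivity
    have hp0 : 0 ≤ 2 ^ j * (2 * K) / (j : ℝ) ^ A * (1 / d) := by positivity
    by_cases hcond : γ ≠ 0 ∧ γ * d + α ≠ 0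
    · have hE : Ek Bad N (α, β, γ, c) d = Es Bad N α β γ c d := by
        unfold Ek
        exact if_pos hcond
      rw [hE]
      rcases Es_card Bad N j K d A D α β γ c hK hd1 hα hβ hγ hc hγ0 hcond.2 hj hj1 (hq d hd) P1 P2
        with h | ⟨δ, hδ, hdvd⟩
      · linarith
      · rw [e1, e2] at hdvd
        have h00 : γ' * d + α' ≠ 0 := by
          intro h
          apply hcond.2
          rw [hγ', hα']
          linear_combination (g : ℤ) * h
        have h3 : (N : ℝ) * (1 / d) ≤ ∑ δ ∈ D, (if d ∈ S δ then (N : ℝ) * (1 / d) else 0) := by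
          have h4 : (if d ∈ S δ then (N : ℝ) * (1 / d) else 0) ≤
              ∑ δ ∈ D, (if d ∈ S δ then (N : ℝ) * (1 / d) else 0) :=
            single_le_sum (f := fun δ => if d ∈ S δ then (N : ℝ) * (1 / d) else 0)
              (fun δ _ => by
                change (0 : ℝ) ≤ if d ∈ S δ then (N : ℝ) * (1 / d) else 0
                split_ifs <;> positivity) hδ
          rwa [if_pos (mem_filter.2 ⟨hd, hdvd, h00⟩)] at h4
        have h4 : ((Es Bad N α β γ c d).card : ℝ) ≤ N * (1 / d) := by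
          have h5 : (Es Bad N α β γ c d).card ≤ N / d := by
            unfold Es
            refine (card_filter_le _ _).trans ?_
            rw [Nat.card_Icc, Nat.add_sub_cancel]
          have h6 : ((N / d : ℕ) : ℝ) ≤ (N : ℝ) / d := Nat.cast_div_le
          have h7 : ((Es Bad N α β γ c d).card : ℝ) ≤ ((N / d : ℕ) : ℝ) := by exact_mod_cast h5
          rw [mul_one_div]
          exact h7.trans h6
        linarith
    · have hE : Ek Bad N (α, β, γ, c) d = ∅ := by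
        unfold Ek
        exact if_neg hcond
      rw [hE, card_empty, Nat.cast_zero]
      linarith
  refine (sum_le_sum hone).trans ?_
  rw [sum_add_distrib, ← mul_sum, sum_comm]
  have hsq : Nat.sqrt N ≤ N := Nat.sqrt_le_self N
  have h1 : ∑ d ∈ Icc 1 (Nat.sqrt N), (1 : ℝ) / d ≤ Hm (2 * K * N) := by
    refine Hm_mono (hsq.trans ?_)
    nlinarith
  have h2 : ∀ δ ∈ D, ∑ d ∈ Icc 1 (Nat.sqrt N), (if d ∈ S δ then (N : ℝ) * (1 / d) else 0) ≤
      (N : ℝ) * (2 * K) * Hm (2 * K * N) * (1 / δ) := by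
    intro δ hδ
    have hδ1 := hD1 δ hδ
    have hδ0 : (0 : ℝ) < δ := by exact_mod_cast hδ1
    rw [← sum_filter, ← mul_sum]
    have h3 : (Icc 1 (Nat.sqrt N)).filter (fun d => d ∈ S δ) ⊆ S δ := fun d hd => (mem_filter.1 hd).2
    have h4 := irregular_sum (Nat.sqrt N) K δ γ' α' hK hδ1 hα'K hγ'K hγ'0
      ((Icc 1 (Nat.sqrt N)).filter (fun d => d ∈ S δ)) (filter_subset _ _)
      (fun d hd => (mem_filter.1 (h3 hd)).2.1) (fun d hd => (mem_filter.1 (h3 hd)).2.2)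
    have h5 : Hm (2 * K * Nat.sqrt N) ≤ Hm (2 * K * N) := Hm_mono (Nat.mul_le_mul_left _ hsq)
    calc (N : ℝ) * ∑ d ∈ (Icc 1 (Nat.sqrt N)).filter (fun d => d ∈ S δ), (1 : ℝ) / d
        ≤ (N : ℝ) * ((2 * K : ℝ) / δ * Hm (2 * K * N)) := by
          apply mul_le_mul_of_nonneg_left _ (Nat.cast_nonneg _)
          exact h4.trans (mul_le_mul_of_nonneg_left h5 (by positivity))
      _ = (N : ℝ) * (2 * K) * Hm (2 * K * N) * (1 / δ) := by ring
  calc 2 ^ j * (2 * (K : ℝ)) / (j : ℝ) ^ A * ∑ d ∈ Icc 1 (Nat.sqrt N), (1 : ℝ) / d +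
        ∑ δ ∈ D, ∑ d ∈ Icc 1 (Nat.sqrt N), (if d ∈ S δ then (N : ℝ) * (1 / d) else 0)
      ≤ 2 ^ j * (2 * (K : ℝ)) / (j : ℝ) ^ A * Hm (2 * K * N) +
        (N : ℝ) * (2 * K) * Hm (2 * K * N) * (1 / (j : ℝ) ^ A) := by
        apply add_le_add
        · exact mul_le_mul_of_nonneg_left h1 (by positivity)
        · refine (sum_le_sum h2).trans ?_
          rw [← mul_sum]
          exact mul_le_mul_of_nonneg_left hD (by positivity)
    _ = (2 ^ j + (N : ℝ)) * (2 * K) / (j : ℝ) ^ A * Hm (2 * K * N) := by ring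

/-- the general theorem on factorisations -/
theorem fac_bound (Bad : ℕ → Prop) (H : H1 Bad) (H' : H2 Bad) (A B : ℕ) :
    ∃ N₀ : ℕ, ∀ N : ℕ, N₀ ≤ N → ∀ K : ℕ, (K : ℝ) ≤ Real.log N ^ B →
      ({m : ℕ | 1 ≤ m ∧ m ≤ N ∧ FacBad Bad K m}.ncard : ℝ) ≤ (N : ℝ) / Real.log N ^ A := by
  classical
  obtain ⟨A1, hA1⟩ : ∃ A1, A1 = A + 6 * B + 2 := ⟨_, rfl⟩
  obtain ⟨j1, hj1⟩ := H A1 (2 * B + 1)
  obtain ⟨j2, hj2⟩ := H' A1
  have hev1 : ∀ᶠ N : ℕ in Filter.atTop, ((5832 : ℝ) + j1 + j2) ≤ Real.log N :=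
    (Real.tendsto_log_atTop.comp tendsto_natCast_atTop_atTop).eventually_ge_atTop _
  have hev2 : ∀ᶠ N : ℕ in Filter.atTop, Real.log N ^ (4 * B + 1) ≤ (N : ℝ) := by
    have h := (Real.isLittleO_pow_log_id_atTop (n := 4 * B + 1)).bound (c := 1) (by norm_num)
    have h2 := tendsto_natCast_atTop_atTop (R := ℝ) |>.eventually h
    filter_upwards [h2, hev1] with N hN hN1
    simp only [id, Real.norm_eq_abs, one_mul] at hN
    have h3 : (0 : ℝ) ≤ N := Nat.cast_nonneg _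
    rw [abs_of_nonneg h3] at hN
    exact (le_abs_self _).trans hN
  obtain ⟨N₀, hN₀⟩ := Filter.eventually_atTop.1 (hev1.and hev2)
  refine ⟨N₀ + 2, fun N hN K hK => ?_⟩
  obtain ⟨hL, hLN⟩ := hN₀ N (by omega)
  obtain ⟨L, hLd⟩ : ∃ L, L = Real.log (N : ℝ) := ⟨_, rfl⟩
  rw [← hLd] at hL hLN hK ⊢
  have hj1n : (0 : ℝ) ≤ j1 := Nat.cast_nonneg _
  have hj2n : (0 : ℝ) ≤ j2 := Nat.cast_nonneg _
  have hL1 : 5832 ≤ L := by linarith
  have hL0 : 0 < L := by linarith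
  have hN0 : (0 : ℝ) < N := by exact_mod_cast (by omega : 0 < N)
  -- replace `K` by `max K 1`
  obtain ⟨K', hK'⟩ : ∃ K', K' = max K 1 := ⟨_, rfl⟩
  have hK1 : 1 ≤ K' := by rw [hK']; exact le_max_right _ _
  have hKK : K ≤ K' := by rw [hK']; exact le_max_left _ _
  have hK'L : (K' : ℝ) ≤ L ^ B := by
    rw [hK']
    push_cast
    exact max_le hK (one_le_pow₀ (by linarith))
  have hK'0 : (1 : ℝ) ≤ K' := by exact_mod_cast hK1
  have hset : {m : ℕ | 1 ≤ m ∧ m ≤ N ∧ FacBad Bad K m} ⊆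
      (((Icc 1 N).filter (FacBad Bad K') : Finset ℕ) : Set ℕ) := by
    rintro m ⟨h1, h2, d, e, h3, α, β, γ, c, h4, h5, h6, h7, h8⟩
    rw [mem_coe, mem_filter, mem_Icc]
    have hKK' : (K : ℤ) ≤ K' := by exact_mod_cast hKK
    exact ⟨⟨h1, h2⟩, d, e, h3, α, β, γ, c, h4.trans hKK', h5.trans hKK', h6.trans hKK', h7.trans hKK', h8⟩
  have hcard : ({m : ℕ | 1 ≤ m ∧ m ≤ N ∧ FacBad Bad K m}.ncard : ℝ) ≤
      (((Icc 1 N).filter (FacBad Bad K')).card : ℝ) := by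
    have := Set.ncard_le_ncard hset (finite_toSet _)
    rw [Set.ncard_coe_finset] at this
    exact_mod_cast this
  refine hcard.trans ?_
  clear hset hcard hK hKK hK' K
  -- the exponent `j`
  obtain ⟨j, hjd⟩ : ∃ j, j = Nat.clog 2 (4 * K' * N) := ⟨_, rfl⟩
  have hj : 4 * K' * N ≤ 2 ^ j := by rw [hjd]; exact Nat.le_pow_clog (by norm_num) _
  have hN2 : 2 ≤ N := by omega
  have hjup : (2 : ℝ) ^ j ≤ 8 * K' * N := by
    have h1 : 2 ^ (Nat.clog 2 (4 * K' * N)).pred < 4 * K' * N :=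
      Nat.pow_pred_clog_lt_self (by norm_num) (by nlinarith)
    rw [← hjd] at h1
    have h2 : 0 < j := by
      rcases Nat.eq_zero_or_pos j with h | h
      · rw [h, pow_zero] at hj
        nlinarith
      · exact h
    have h3 : 2 ^ j = 2 * 2 ^ j.pred := by
      obtain ⟨i, rfl⟩ : ∃ i, j = i + 1 := ⟨j - 1, by omega⟩
      rw [Nat.pred_succ, pow_succ]
      ring
    have h4 : 2 ^ j ≤ 8 * K' * N := by rw [h3]; nlinarith
    exact_mod_cast h4
  have hjL : L ≤ j := by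
    have h1 : (N : ℝ) ≤ 2 ^ j := by
      have : N ≤ 2 ^ j := by nlinarith
      exact_mod_cast this
    have h2 : Real.log N ≤ j * Real.log 2 := by
      rw [← Real.log_pow]
      exact Real.log_le_log hN0 h1
    have h3 : Real.log 2 ≤ 1 := by
      have := Real.log_two_lt_d9
      linarith
    have h4 : (0 : ℝ) ≤ j := Nat.cast_nonneg _
    rw [hLd]
    nlinarith
  have hj0 : (0 : ℝ) < j := by linarith
  have hjj1 : j1 ≤ j := by
    have : (j1 : ℝ) ≤ j := by linarith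
    exact_mod_cast this
  have hjj2 : j2 ≤ j := by
    have : (j2 : ℝ) ≤ j := by linarith
    exact_mod_cast this
  have hj1' : 1 ≤ j := by exact_mod_cast hj0
  obtain ⟨D, hD1, hD, P2⟩ := hj2 j hjj2
  have hKgcd : 2 * K' ^ 2 ≤ j ^ (2 * B + 1) := by
    have h1 : (K' : ℝ) ^ 2 ≤ L ^ (2 * B) := by
      rw [mul_comm 2 B, pow_mul]
      exact pow_le_pow_left₀ (by positivity) hK'L 2
    have h2 : (2 : ℝ) * K' ^ 2 ≤ (j : ℝ) ^ (2 * B + 1) := by
      have h3 : L ^ (2 * B) ≤ (j : ℝ) ^ (2 * B) := pow_le_pow_left₀ hL0.le hjL _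
      have h4 : (0 : ℝ) ≤ (j : ℝ) ^ (2 * B) := by positivity
      have h5 : (j : ℝ) ^ (2 * B + 1) = (j : ℝ) ^ (2 * B) * j := pow_succ _ _
      have h6 : (2 : ℝ) ≤ j := by linarith
      rw [h5]
      nlinarith
    exact_mod_cast h2
  have hq : ∀ d ∈ Icc 1 (Nat.sqrt N), (2 * K' * d) ^ 5 ≤ 2 ^ (3 * j) := by
    intro d hd
    have hdN : d * d ≤ N := Nat.le_sqrt.1 (mem_Icc.1 hd).2
    have hK4 : K' ^ 4 ≤ 4 * N := by
      have h1 : (K' : ℝ) ^ 4 ≤ L ^ (4 * B) := by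
        rw [mul_comm 4 B, pow_mul]
        exact pow_le_pow_left₀ (by positivity) hK'L 4
      have h2 : L ^ (4 * B) ≤ L ^ (4 * B + 1) := pow_le_pow_right₀ (by linarith) (by omega)
      have h3 : (K' : ℝ) ^ 4 ≤ 4 * N := by linarith
      exact_mod_cast h3
    rw [← Nat.pow_le_pow_iff_left (two_ne_zero)]
    calc ((2 * K' * d) ^ 5) ^ 2 = 1024 * K' ^ 6 * K' ^ 4 * (d * d) ^ 5 := by ring
      _ ≤ 1024 * K' ^ 6 * (4 * N) * N ^ 5 := by gcongr
      _ = (4 * K' * N) ^ 6 := by ring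
      _ ≤ (2 ^ j) ^ 6 := Nat.pow_le_pow_left hj 6
      _ = (2 ^ (3 * j)) ^ 2 := by rw [← pow_mul, ← pow_mul]; congr 1; ring
  have hsum : (((Icc 1 N).filter (FacBad Bad K')).card : ℝ) ≤
      ((2 * K' + 1 : ℕ) : ℝ) ^ 4 * ((2 ^ j + N) * (2 * K') / (j : ℝ) ^ A1 * Hm (2 * K' * N)) := by
    have h1 := fac_union Bad N K'
    have h2 : (((Icc 1 N).filter (FacBad Bad K')).card : ℝ) ≤
        ∑ κ ∈ box K', ∑ d ∈ Icc 1 (Nat.sqrt N), ((Ek Bad N κ d).card : ℝ) := by exact_mod_cast h1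
    refine h2.trans ?_
    have h3 := sum_le_card_nsmul (box K') (fun κ => ∑ d ∈ Icc 1 (Nat.sqrt N), ((Ek Bad N κ d).card : ℝ))
      ((2 ^ j + N) * (2 * K') / (j : ℝ) ^ A1 * Hm (2 * K' * N))
      (fun κ hκ => Ek_sum Bad N j K' A1 D κ hκ hK1 hj hj1' hq hD1 hD
        (fun q hq1 hq5 a ha => hj1 j hjj1 q hq1 hq5 a (ha.trans hKgcd)) P2)
    refine h3.trans (le_of_eq ?_)
    rw [nsmul_eq_mul, box_card]
    push_cast
    ring
  refine hsum.trans ?_
  have hHm : Hm (2 * K' * N) ≤ 4 * L := by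
    refine (Hm_le _).trans ?_
    push_cast
    rw [Real.log_mul (by positivity) (by positivity), Real.log_mul (by norm_num) (by positivity), ← hLd]
    have h1 : Real.log 2 ≤ 1 := by
      have := Real.log_two_lt_d9
      linarith
    have h2 : Real.log K' ≤ L := by
      rw [hLd]
      apply Real.log_le_log (by positivity)
      calc (K' : ℝ) ≤ L ^ B := hK'L
        _ ≤ L ^ (4 * B + 1) := pow_le_pow_right₀ (by linarith) (by omega)
        _ ≤ N := hLN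
    linarith
  have hHm0 := Hm_nonneg (2 * K' * N)
  have h3K : ((2 * K' + 1 : ℕ) : ℝ) ≤ 3 * K' := by
    push_cast
    linarith
  have h4 : (2 ^ j + (N : ℝ)) * (2 * K') ≤ 18 * K' ^ 2 * N := by
    have : (2 : ℝ) ^ j + N ≤ 9 * K' * N := by nlinarith
    nlinarith
  have hjA : L ^ A1 ≤ (j : ℝ) ^ A1 := pow_le_pow_left₀ hL0.le hjL _
  have hLA1 : 0 < L ^ A1 := by positivity
  calc ((2 * K' + 1 : ℕ) : ℝ) ^ 4 * ((2 ^ j + N) * (2 * K') / (j : ℝ) ^ A1 * Hm (2 * K' * N))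
      ≤ (3 * K') ^ 4 * ((18 * K' ^ 2 * N) / L ^ A1 * (4 * L)) := by
        gcongr
    _ = 5832 * (K' : ℝ) ^ 6 * L * N / L ^ A1 := by ring
    _ ≤ 5832 * (L ^ B) ^ 6 * L * N / L ^ A1 := by gcongr
    _ = 5832 * (L ^ (6 * B + 1) * N) / L ^ A1 := by rw [← pow_mul, pow_succ, mul_comm B 6]; ring
    _ ≤ L * (L ^ (6 * B + 1) * N) / L ^ A1 := by gcongr
    _ = N / L ^ A := by
        rw [hA1]
        field_simp
        ring

end Run7.h702.DV
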