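import Pool.Agent.Run7.h702.DV.Base
import Pool.Agent.R460.GH.Conv
import Pool.Agent.Results.MP_bae66e_nt.MultiplesOfModuliUpToTwoThirds

/-!
# Goldbach's problem: the exceptional set is rare in residue classes and among multiples
-/

set_option autoImplicit false

namespace Run7.h702.DV

open Finset

theorem sum_inv_sq (R : ℕ) : ∑ i ∈ Icc 1 R, (1 : ℝ) / (i : ℝ) ^ 2 ≤ 2 := by
  rcases Nat.eq_zero_or_pos R with h | h
  · rw [h]
    simp
  · have h1 : Icc 1 R = insert 1 (Ioc 1 R) := by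
      ext i
      simp only [mem_Icc, mem_insert, mem_Ioc]
      omega
    have h2 : (1 : ℕ) ∉ Ioc 1 R := by simp
    rw [h1, sum_insert h2]
    have h3 := sum_Ioc_inv_sq_le_sub (α := ℝ) (k := 1) (n := R) one_ne_zero h
    have h4 : ∑ i ∈ Ioc 1 R, (1 : ℝ) / (i : ℝ) ^ 2 ≤ 1 := by
      simp only [one_div]
      refine h3.trans ?_
      have : (0 : ℝ) ≤ (R : ℝ)⁻¹ := by positivity
      push_cast
      rw [inv_one]
      linarith
    norm_num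
    norm_num at h4
    linarith

/-- a sparse set of large integers has a small sum of reciprocals -/
theorem sparse_recip (D : Finset ℕ) (Λ ρ : ℝ) (hΛ : 1 ≤ Λ) (hρ : ρ ≤ 1 / 4) (h1 : ∀ δ ∈ D, Λ < (δ : ℝ))
    (h2 : ∀ y : ℝ, 1 ≤ y → ((D.filter (fun d : ℕ => (d : ℝ) ≤ y)).card : ℝ) ≤ y ^ ρ) :
    ∑ δ ∈ D, (1 : ℝ) / δ ≤ 2 / √Λ := by
  classical
  let r : ℕ → ℕ := fun δ => (D.filter (fun d : ℕ => d ≤ δ)).card
  have hr0 : ∀ δ ∈ D, 1 ≤ r δ := by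
    intro δ hδ
    exact card_pos.2 ⟨δ, mem_filter.2 ⟨hδ, le_rfl⟩⟩
  have hlt : ∀ δ ∈ D, ∀ δ' ∈ D, δ < δ' → r δ < r δ' := by
    intro δ _ δ' hδ' h
    apply card_lt_card
    rw [ssubset_iff_of_subset]
    · exact ⟨δ', mem_filter.2 ⟨hδ', le_rfl⟩, fun hh => absurd (mem_filter.1 hh).2 (by omega)⟩
    · intro d hd
      rw [mem_filter] at hd ⊢
      exact ⟨hd.1, hd.2.trans h.le⟩
  have hinj : Set.InjOn r (D : Set ℕ) := by
    intro δ hδ δ' hδ' h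
    rcases lt_trichotomy δ δ' with h' | h' | h'
    · exact absurd h (hlt δ hδ δ' hδ' h').ne
    · exact h'
    · exact absurd h (hlt δ' hδ' δ hδ h').ne'
  have hle : ∀ δ ∈ D, (1 : ℝ) / δ ≤ 1 / √Λ * (1 / (r δ : ℝ) ^ 2) := by
    intro δ hδ
    have h3 := h1 δ hδ
    have hδ0 : (0 : ℝ) < δ := by linarith
    have hδ1 : (1 : ℝ) ≤ δ := by linarith
    have h4 : (r δ : ℝ) ≤ (δ : ℝ) ^ ρ := by
      have := h2 δ hδ1
      simp only [Nat.cast_le] at this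
      exact this
    have h5 : (r δ : ℝ) ≤ (δ : ℝ) ^ (1 / 4 : ℝ) := h4.trans (Real.rpow_le_rpow_of_exponent_le hδ1 hρ)
    have h6 : (r δ : ℝ) ^ 2 ≤ √(δ : ℝ) := by
      calc (r δ : ℝ) ^ 2 ≤ ((δ : ℝ) ^ (1 / 4 : ℝ)) ^ 2 := pow_le_pow_left₀ (Nat.cast_nonneg _) h5 2
        _ = √(δ : ℝ) := by
          rw [← Real.rpow_natCast, ← Real.rpow_mul hδ0.le, Real.sqrt_eq_rpow]
          norm_num
    have h7 : √Λ ≤ √(δ : ℝ) := Real.sqrt_le_sqrt h3.le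
    have h8 : √(δ : ℝ) * √(δ : ℝ) = δ := Real.mul_self_sqrt hδ0.le
    have h9 : 0 < √Λ := Real.sqrt_pos.2 (by linarith)
    have h10 : (0 : ℝ) < (r δ : ℝ) ^ 2 := by
      have : (0 : ℝ) < r δ := by exact_mod_cast hr0 δ hδ
      positivity
    rw [one_div_mul_one_div]
    apply one_div_le_one_div_of_le (by positivity)
    rw [← h8]
    exact mul_le_mul h7 h6 h10.le (Real.sqrt_nonneg _)
  calc ∑ δ ∈ D, (1 : ℝ) / δ ≤ ∑ δ ∈ D, 1 / √Λ * (1 / (r δ : ℝ) ^ 2) := sum_le_sum hle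
    _ = 1 / √Λ * ∑ i ∈ D.image r, (1 : ℝ) / (i : ℝ) ^ 2 := by rw [mul_sum, sum_image hinj]
    _ ≤ 1 / √Λ * ∑ i ∈ Icc 1 D.card, (1 : ℝ) / (i : ℝ) ^ 2 := by
        apply mul_le_mul_of_nonneg_left _ (by positivity)
        apply sum_le_sum_of_subset_of_nonneg
        · intro i hi
          rw [mem_image] at hi
          obtain ⟨δ, hδ, rfl⟩ := hi
          rw [mem_Icc]
          exact ⟨hr0 δ hδ, card_filter_le _ _⟩
        · intro _ _ _
          positivity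
    _ ≤ 1 / √Λ * 2 := mul_le_mul_of_nonneg_left (sum_inv_sq _) (by positivity)
    _ = 2 / √Λ := by ring

theorem log_two_pow_sq {j : ℕ} (hj : 3 ≤ j) : (j : ℝ) ≤ Real.log ((2 : ℝ) ^ j) ^ 2 := by
  rw [Real.log_pow]
  have h1 := Real.log_two_gt_d9
  have h2 : (3 : ℝ) ≤ j := by exact_mod_cast hj
  have h3 : (0.69 : ℝ) * j ≤ j * Real.log 2 := by nlinarith
  nlinarith

theorem j_pow_le {j : ℕ} (hj : 3 ≤ j) (A : ℕ) : (j : ℝ) ^ A ≤ Real.log ((2 : ℝ) ^ j) ^ (2 * A) := by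
  rw [pow_mul]
  exact pow_le_pow_left₀ (Nat.cast_nonneg _) (log_two_pow_sq hj) A

theorem q_le {q j : ℕ} (h : q ^ 5 ≤ 2 ^ (3 * j)) {s : ℝ} (hs : s = 3 / 5) : (q : ℝ) ≤ ((2 : ℝ) ^ j) ^ s := by
  have h1 : (q : ℝ) ^ (5 : ℕ) ≤ 2 ^ (3 * j) := by exact_mod_cast h
  have h2 : (q : ℝ) = ((q : ℝ) ^ (5 : ℕ)) ^ (1 / 5 : ℝ) := by
    rw [← Real.rpow_natCast, ← Real.rpow_mul (Nat.cast_nonneg _)]
    norm_num
  rw [h2]
  refine (Real.rpow_le_rpow (by positivity) h1 (by norm_num)).trans (le_of_eq ?_)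
  rw [hs, ← Real.rpow_natCast, ← Real.rpow_natCast, ← Real.rpow_mul (by norm_num),
    ← Real.rpow_mul (by norm_num)]
  congr 1
  push_cast
  ring

theorem ev_two_pow (C : ℝ) (A : ℕ) : ∃ j₀ : ℕ, ∀ j : ℕ, j₀ ≤ j → C * (j : ℝ) ^ A ≤ 2 ^ j := by
  have h1 : Filter.Tendsto (fun j : ℕ => (j : ℝ) ^ A / 2 ^ j) Filter.atTop (nhds 0) :=
    tendsto_pow_const_div_const_pow_of_one_lt A (by norm_num)
  have h2 := h1.eventually (gt_mem_nhds (show (0 : ℝ) < 1 / (|C| + 1) by positivity))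
  obtain ⟨j₀, h⟩ := Filter.eventually_atTop.1 h2
  refine ⟨j₀, fun j hj => ?_⟩
  have h3 := h j hj
  rw [div_lt_div_iff₀ (by positivity) (by positivity), one_mul] at h3
  have h4 := le_abs_self C
  have h5 : (0 : ℝ) ≤ (j : ℝ) ^ A := by positivity
  nlinarith

theorem cnt_le_card (Bad : ℕ → Prop) (j q : ℕ) (a : ℤ) (S : Finset ℕ)
    (h : ∀ n : ℕ, 1 ≤ n → n ≤ 2 ^ j → (n : ℤ) ≡ a [ZMOD q] → Bad n → n ∈ S) : cnt Bad j q a ≤ S.card := by
  classical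
  unfold cnt
  apply card_le_card
  intro n hn
  rw [mem_filter, mem_Icc] at hn
  exact h n hn.1.1 hn.1.2 hn.2.1 hn.2.2

/-- small gcd -/
theorem gold_H1 (Q : ℕ → Prop) (ε : ℝ) (hε : 0 < ε) (W : ℕ)
    (hQ : ∃ n₀ : ℕ, ∀ n : ℕ, n₀ ≤ n → 2 ∣ n → Pool.Agent.W93.PG.WinP ε W n → Q n) :
    H1 (fun n => 2 ∣ n ∧ ¬ Q n) := by
  classical
  intro A T
  obtain ⟨x₀, hx⟩ := Pool.Agent.R460.GH.class_asymp Q ε hε W hQ (1 / 15) (by norm_num) (2 * A) (2 * T)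
  obtain ⟨j₁, hj₁⟩ := ev_two_pow x₀ 0
  refine ⟨j₁ + 3, fun j hj q hq1 hq5 a ha => ?_⟩
  have h1 := hj₁ j (by omega)
  rw [pow_zero, mul_one] at h1
  obtain ⟨hfin, h2⟩ := hx (2 ^ j) h1 q hq1 (q_le hq5 (by norm_num)) a (by
    refine le_trans ?_ (j_pow_le (by omega : 3 ≤ j) T)
    exact_mod_cast ha)
  have h3 : (cnt (fun n => 2 ∣ n ∧ ¬ Q n) j q a : ℝ) ≤
      (({n : ℕ | 0 < n ∧ (n : ℝ) ≤ 2 ^ j ∧ 2 ∣ n ∧ (n : ℤ) ≡ a [ZMOD q] ∧ ¬ Q n}.ncard : ℕ) : ℝ) := by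
    rw [Set.ncard_eq_toFinset_card _ hfin]
    have h4 := cnt_le_card (fun n => 2 ∣ n ∧ ¬ Q n) j q a hfin.toFinset (fun n b1 b2 b3 b4 => by
      rw [Set.Finite.mem_toFinset]
      exact ⟨b1, by exact_mod_cast b2, b4.1, b3, b4.2⟩)
    exact_mod_cast h4
  refine h3.trans (h2.trans ?_)
  have hq0 : (0 : ℝ) < q := by exact_mod_cast hq1
  have hj0 : (0 : ℝ) < j := by exact_mod_cast (by omega : 0 < j)
  apply div_le_div_of_nonneg_left (by positivity) (by positivity)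
  exact mul_le_mul_of_nonneg_left (j_pow_le (by omega : 3 ≤ j) A) hq0.le

/-- multiples -/
theorem gold_H2 (Q : ℕ → Prop) (ε : ℝ) (hε : 0 < ε) (W : ℕ)
    (hQ : ∃ n₀ : ℕ, ∀ n : ℕ, n₀ ≤ n → 2 ∣ n → Pool.Agent.W93.PG.WinP ε W n → Q n) :
    H2 (fun n => 2 ∣ n ∧ ¬ Q n) := by
  classical
  obtain ⟨n₀, hn₀⟩ := hQ
  intro A
  obtain ⟨A', hA'⟩ : ∃ A', A' = 4 * (A + 1) + W := ⟨_, rfl⟩
  obtain ⟨N₀, hN⟩ := Pool.Agent.Results.MP_bae66e_nt.MultiplesOfModuliUpToTwoThirds.result ε (1 / 15) hε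
    (by norm_num) A'
  obtain ⟨j₁, hj₁⟩ := ev_two_pow N₀ 0
  obtain ⟨j₂, hj₂⟩ := ev_two_pow (2 * (n₀ + 3 : ℕ)) A
  refine ⟨j₁ + j₂ + 3, fun j hj => ?_⟩
  have h1 := hj₁ j (by omega)
  rw [pow_zero, mul_one] at h1
  have h1' : N₀ ≤ 2 ^ j := by exact_mod_cast h1
  obtain ⟨D, hD1, hD2, hD3, -⟩ := hN (2 ^ j) h1'
  have hj3 : 3 ≤ j := by omega
  have hj0 : (0 : ℝ) < j := by exact_mod_cast (by omega : 0 < j)
  have hj3' : (3 : ℝ) ≤ j := by exact_mod_cast hj3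
  obtain ⟨L, hL⟩ : ∃ L, L = Real.log ((2 : ℝ) ^ j) := ⟨_, rfl⟩
  have hLcast : Real.log ((2 ^ j : ℕ) : ℝ) = L := by rw [hL]; push_cast; rfl
  rw [hLcast] at hD1
  have hL2 : (j : ℝ) ≤ L ^ 2 := by rw [hL]; exact log_two_pow_sq hj3
  have hL0 : 0 < L := by
    rw [hL, Real.log_pow]
    have := Real.log_two_gt_d9
    have h4 : (0 : ℝ) < Real.log 2 := by linarith
    positivity
  have hL1 : 1 ≤ L := by nlinarith
  have hΛ : 2 * (j : ℝ) ^ A ≤ √(L ^ A') := by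
    have h3 : (j : ℝ) ^ (2 * (A + 1)) ≤ L ^ A' := by
      calc (j : ℝ) ^ (2 * (A + 1)) ≤ (L ^ 2) ^ (2 * (A + 1)) := pow_le_pow_left₀ hj0.le hL2 _
        _ = L ^ (4 * (A + 1)) := by rw [← pow_mul]; congr 1; ring
        _ ≤ L ^ A' := pow_le_pow_right₀ hL1 (by omega)
    have h4 : √((j : ℝ) ^ (2 * (A + 1))) = (j : ℝ) ^ (A + 1) := by
      rw [mul_comm 2, pow_mul, Real.sqrt_sq (by positivity)]
    refine le_trans ?_ (Real.sqrt_le_sqrt h3)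
    rw [h4, pow_succ]
    have h5 : (0 : ℝ) ≤ (j : ℝ) ^ A := by positivity
    nlinarith
  refine ⟨D, ?_, ?_, ?_⟩
  · intro δ hδ
    have h3 := hD1 δ hδ
    have h4 : (0 : ℝ) < δ := lt_trans (by positivity) h3
    exact_mod_cast h4
  · refine (sparse_recip D (L ^ A') (1 / 15) (one_le_pow₀ hL1) (by norm_num) hD1 hD2).trans ?_
    rw [div_le_div_iff₀ (by positivity) (by positivity)]
    linarith
  · intro q hq1 hq5 hreg
    have h3 := hD3 q hq1 (by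
      have := q_le hq5 (s := 2 / 3 - 1 / 15) (by norm_num)
      push_cast
      exact this) hreg
    unfold Pool.Agent.Results.MP_bae66e_nt.MultiplesOfModuliUpToTwoThirds.Regular at h3
    rw [hLcast] at h3
    have hq0 : (0 : ℝ) < q := by exact_mod_cast hq1
    have hcnt : cnt (fun n => 2 ∣ n ∧ ¬ Q n) j q 0 ≤
        Pool.Agent.Results.MP_bae66e_nt.MultiplesOfModuliUpToTwoThirds.exceptions ε A' (2 ^ j) q +
          (n₀ + 3) / q := by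
      unfold Pool.Agent.Results.MP_bae66e_nt.MultiplesOfModuliUpToTwoThirds.exceptions
      refine (cnt_le_card _ j q 0 ((Icc 1 (2 ^ j)).filter (fun m => 2 ∣ m ∧ q ∣ m ∧
            ¬ Pool.Agent.Results.MP_bae66e_nt.MultiplesOfModuliUpToTwoThirds.Holds ε A' m) ∪
          (Ioc 0 (n₀ + 3)).filter (fun m => q ∣ m)) ?_).trans ((card_union_le _ _).trans
            (Nat.add_le_add ?_ ?_))
      · intro n hn1 hn1' hn2 hn3
        have hqn : q ∣ n := Int.natCast_dvd_natCast.1 (Int.modEq_zero_iff_dvd.1 hn2)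
        rw [mem_union, mem_filter, mem_filter, mem_Icc, mem_Ioc]
        by_cases hs : n ≤ n₀ + 3
        · exact Or.inr ⟨⟨by omega, hs⟩, hqn⟩
        · left
          refine ⟨⟨hn1, hn1'⟩, hn3.1, hqn, fun hh => hn3.2 (hn₀ n (by omega) hn3.1 ?_)⟩
          intro y₁ y₂ hy hy2 hw
          apply hh.2 y₁ y₂ hy hy2
          refine le_trans ?_ hw
          have hlog : 1 ≤ Real.log n := by
            have h5 : (3 : ℝ) ≤ n := by exact_mod_cast (by omega : 3 ≤ n)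
            rw [Real.le_log_iff_exp_le (by linarith)]
            have := Real.exp_one_lt_d9
            linarith
          apply div_le_div_of_nonneg_left (Nat.cast_nonneg _) (by positivity)
          exact pow_le_pow_right₀ hlog (by omega)
      · apply le_of_eq
        congr 1
      · rw [Nat.Ioc_filter_dvd_card_eq_div]
    have h5 : (((n₀ + 3) / q : ℕ) : ℝ) ≤ ((n₀ + 3 : ℕ) : ℝ) / q := Nat.cast_div_le
    have h6 : (cnt (fun n => 2 ∣ n ∧ ¬ Q n) j q 0 : ℝ) ≤ ((2 ^ j : ℕ) : ℝ) / (q * L ^ A') +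
        ((n₀ + 3 : ℕ) : ℝ) / q := by
      have h7 : (cnt (fun n => 2 ∣ n ∧ ¬ Q n) j q 0 : ℝ) ≤
          (Pool.Agent.Results.MP_bae66e_nt.MultiplesOfModuliUpToTwoThirds.exceptions ε A' (2 ^ j) q : ℝ) +
          (((n₀ + 3) / q : ℕ) : ℝ) := by exact_mod_cast hcnt
      linarith
    refine h6.trans ?_
    have h7 : 2 * (j : ℝ) ^ A ≤ L ^ A' := by
      have h8 : 1 ≤ √(L ^ A') := by
        rw [Real.one_le_sqrt]
        exact one_le_pow₀ hL1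
      have h9 : √(L ^ A') * √(L ^ A') = L ^ A' := Real.mul_self_sqrt (by positivity)
      nlinarith
    have h8 : ((2 ^ j : ℕ) : ℝ) / (q * L ^ A') ≤ 2 ^ j / (q * (j : ℝ) ^ A) / 2 := by
      push_cast
      rw [div_div]
      apply div_le_div_of_nonneg_left (by positivity) (by positivity)
      nlinarith
    have h9 : ((n₀ + 3 : ℕ) : ℝ) / q ≤ 2 ^ j / (q * (j : ℝ) ^ A) / 2 := by
      rw [div_div, div_le_div_iff₀ hq0 (by positivity)]
      have h10 := hj₂ j (by omega)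
      push_cast at h10 ⊢
      nlinarith
    linarith

end Run7.h702.DV
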