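import Pool.Agent.Run7.h702.DV.PairB

set_option autoImplicit false

namespace Run7.h702.DV

open Finset

/-- some `α d₁ + β d₂ + c` with divisors `d₁, d₂` of `m`, `y ≤ max d₁ d₂`, and small coefficients is bad -/
def PairBad (Bad : ℕ → Prop) (B y m : ℕ) : Prop :=
  ∃ d₁ d₂ : ℕ, d₁ ∣ m ∧ d₂ ∣ m ∧ y ≤ max d₁ d₂ ∧ ∃ α β c : ℤ, α ≠ 0 ∧ β ≠ 0 ∧
    |(α : ℝ)| ≤ Real.log (max d₁ d₂ : ℕ) ^ B ∧ |(β : ℝ)| ≤ Real.log (max d₁ d₂ : ℕ) ^ B ∧
    |(c : ℝ)| ≤ Real.log (max d₁ d₂ : ℕ) ^ B ∧ α * d₁ + β * d₂ ≠ 0 ∧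
    0 < α * d₁ + β * d₂ + c ∧ Bad (α * d₁ + β * d₂ + c).toNat

/-- the box of coefficients -/
noncomputable def box3 (K : ℕ) : Finset (ℤ × ℤ × ℤ) :=
  (Icc (-(K : ℤ)) K ×ˢ Icc (-(K : ℤ)) K ×ˢ Icc (-(K : ℤ)) K).filter (fun κ => κ.1 ≠ 0)

theorem box3_card (K : ℕ) : (box3 K).card ≤ (2 * K + 1) ^ 3 := by
  unfold box3
  refine (card_filter_le _ _).trans ?_
  simp only [card_product, Int.card_Icc]
  have : ((K : ℤ) + 1 - -(K : ℤ)).toNat = 2 * K + 1 := by omega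
  rw [this]
  apply le_of_eq
  ring

open Classical in
/-- all pairs -/
noncomputable def PB (Bad : ℕ → Prop) (s K v : ℕ) : Finset (ℕ × ℕ) :=
  (box3 K).biUnion (fun κ => PP Bad s κ.1 κ.2.1 κ.2.2 v)

/-- the estimate on the level `s` -/
theorem level_bound (Bad : ℕ → Prop) (H : H1 Bad) (H' : H2 Bad) (A B : ℕ) :
    ∃ s₀ : ℕ, ∀ s : ℕ, s₀ ≤ s →
      ∑ v ∈ (Icc 1 (2 ^ (s + 1)) : Finset ℕ), (1 / (v : ℝ)) * ((PB Bad s ((s + 1) ^ B) v).card : ℝ) ≤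
        2 ^ s / (s : ℝ) ^ A := by
  classical
  obtain ⟨A1, hA1⟩ : ∃ A1, A1 = A + 4 * B + 4 := ⟨_, rfl⟩
  obtain ⟨j1, hj1⟩ := H A1 (3 * B)
  obtain ⟨j2, hj2⟩ := H' A1
  obtain ⟨C, hC⟩ : ∃ C : ℕ, C = 7290 * 16 ^ B * 2 ^ A1 := ⟨_, rfl⟩
  have hev : ∀ᶠ s : ℕ in Filter.atTop, ((16 * (s + 1) ^ (4 * B) : ℕ) : ℝ) ≤ 2 ^ s := by
    have h1 : Filter.Tendsto (fun j : ℕ => (j : ℝ) ^ (4 * B) / 2 ^ j) Filter.atTop (nhds 0) :=
      tendsto_pow_const_div_const_pow_of_one_lt (4 * B) (by norm_num)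
    have h2 := h1.eventually (gt_mem_nhds (show (0 : ℝ) < 1 / (16 * 2 ^ (4 * B)) by positivity))
    filter_upwards [h2, Filter.eventually_ge_atTop 1] with s hs hs1
    rw [div_lt_div_iff₀ (by positivity) (by positivity), one_mul] at hs
    have h3 : ((s : ℝ) + 1) ^ (4 * B) ≤ (2 * s) ^ (4 * B) := by
      apply pow_le_pow_left₀ (by positivity)
      have : (1 : ℝ) ≤ s := by exact_mod_cast hs1
      linarith
    rw [mul_pow] at h3
    push_cast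
    nlinarith
  obtain ⟨s1, hs1⟩ := Filter.eventually_atTop.1 hev
  refine ⟨2 * j1 + 2 * j2 + s1 + C + 8, fun s hs => ?_⟩
  obtain ⟨K, hK⟩ : ∃ K, K = (s + 1) ^ B := ⟨_, rfl⟩
  rw [← hK]
  have hK1 : 1 ≤ K := by rw [hK]; exact Nat.one_le_pow _ _ (by omega)
  have hs1' : 1 ≤ s := by omega
  have hs0 : (0 : ℝ) < s := by exact_mod_cast (by omega : 0 < s)
  have hs1r : (1 : ℝ) ≤ s := by exact_mod_cast hs1'
  have hK0 : (1 : ℝ) ≤ K := by exact_mod_cast hK1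
  have hKs : 16 * K ^ 4 ≤ 2 ^ s := by
    have h := hs1 s (by omega)
    have h2 : 16 * (s + 1) ^ (4 * B) ≤ 2 ^ s := by exact_mod_cast h
    rw [hK, ← pow_mul, mul_comm B 4]
    exact h2
  -- the levels
  have hlev : ∀ j : ℕ, (s + 1) / 2 ≤ j → ∃ D : Finset ℕ, Lev Bad K A1 j D := by
    intro j hj
    obtain ⟨D, hD1, hD2, hD3⟩ := hj2 j (by omega)
    refine ⟨D, hD1, hD2, fun q hq1 hq5 a ha => hj1 j (by omega) q hq1 hq5 a (ha.trans ?_), hD3⟩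
    have h1 : s + 1 ≤ j ^ 3 := by
      have h2 : s ≤ 2 * j := by omega
      have h3 : 4 ≤ j := by omega
      nlinarith [Nat.mul_le_mul h3 h3]
    rw [hK, pow_mul]
    exact Nat.pow_le_pow_left h1 B
  choose! D hD using hlev
  -- the level of the first range
  obtain ⟨j₀, hj₀⟩ : ∃ j₀, j₀ = Nat.clog 2 (5 * K * 2 ^ s) := ⟨_, rfl⟩
  have h2s : 1 ≤ 2 ^ s := Nat.one_le_two_pow
  have hj : 5 * K * 2 ^ s ≤ 2 ^ j₀ := by rw [hj₀]; exact Nat.le_pow_clog (by norm_num) _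
  have hj' : (2 : ℝ) ^ j₀ ≤ 10 * K * 2 ^ s := by
    have h1 : 2 ^ (Nat.clog 2 (5 * K * 2 ^ s)).pred < 5 * K * 2 ^ s :=
      Nat.pow_pred_clog_lt_self (by norm_num) (by nlinarith)
    rw [← hj₀] at h1
    have h2 : 0 < j₀ := by
      rcases Nat.eq_zero_or_pos j₀ with h | h
      · rw [h, pow_zero] at hj
        nlinarith
      · exact h
    have h3 : 2 ^ j₀ = 2 * 2 ^ j₀.pred := by
      obtain ⟨i, rfl⟩ : ∃ i, j₀ = i + 1 := ⟨j₀ - 1, by omega⟩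
      rw [Nat.pred_succ, pow_succ]
      ring
    have h4 : 2 ^ j₀ ≤ 10 * K * 2 ^ s := by rw [h3]; nlinarith
    exact_mod_cast h4
  have hsj : s ≤ j₀ := by
    have h1 : 2 ^ s ≤ 2 ^ j₀ := by nlinarith
    exact (Nat.pow_le_pow_iff_right (by norm_num)).1 h1
  obtain ⟨Hh, hHh⟩ : ∃ Hh, Hh = Hm (2 * K * 2 ^ (s + 1)) := ⟨_, rfl⟩
  have hH0 : 0 ≤ Hh := by rw [hHh]; exact Hm_nonneg _
  have hH3 : Hh ≤ 3 * s := by
    have h1 : 2 * K * 2 ^ (s + 1) ≤ 2 ^ (2 * s) := by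
      have h2 : 4 * K ≤ 2 ^ s := by
        have : K ≤ K ^ 4 := Nat.le_self_pow (by norm_num) K
        omega
      calc 2 * K * 2 ^ (s + 1) = 4 * K * 2 ^ s := by ring
        _ ≤ 2 ^ s * 2 ^ s := Nat.mul_le_mul_right _ h2
        _ = 2 ^ (2 * s) := by rw [← pow_add]; congr 1; ring
    have h2 := (Hm_mono h1).trans (Hm_two_pow (2 * s))
    rw [hHh]
    push_cast at h2
    linarith
  -- the pairs for given coefficients
  have hPP : ∀ v : ℕ, ∀ κ ∈ box3 K, ((PP Bad s κ.1 κ.2.1 κ.2.2 v).card : ℝ) ≤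
      2 ^ s * (30 * K * s / ((s : ℝ) / 2) ^ A1 * Hh) := by
    rintro v ⟨α, β, c⟩ hκ
    unfold box3 at hκ
    simp only [mem_filter, mem_product, mem_Icc] at hκ
    obtain ⟨⟨hα, hβ, hc⟩, hα0⟩ := hκ
    replace hα : |α| ≤ K := abs_le.2 hα
    replace hβ : |β| ≤ K := abs_le.2 hβ
    replace hc : |c| ≤ K := abs_le.2 hc
    have h1 := Ug_sum Bad s K A1 j₀ (D j₀) α β c v hα hβ hc hα0 hK1 hs1' (hD j₀ (by omega)) hj hj'
    have h2 := Vu_sum Bad s K A1 D α β c v hα hβ hc hα0 hK1 hs1' (fun j hj _ => hD j hj) hKs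
    have h3 : ((PP Bad s α β c v).card : ℝ) ≤ ∑ g ∈ Icc 1 (2 ^ (s + 1)), ((Ug Bad s α β c v g).card : ℝ) +
        ∑ u ∈ Icc 1 (2 ^ (s + 1)), ((Vu Bad s α β c v u).card : ℝ) := by
      exact_mod_cast PP_card_le Bad s α β c v
    rw [← hHh] at h1 h2
    simp only
    refine h3.trans ((add_le_add h1 h2).trans ?_)
    rw [← mul_add, ← add_mul]
    apply mul_le_mul_of_nonneg_left _ (by positivity)
    apply mul_le_mul_of_nonneg_right _ hH0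
    have h4 : (10 * (K : ℝ) + 4) / (s : ℝ) ^ A1 ≤ (10 * K + 4) / ((s : ℝ) / 2) ^ A1 := by
      apply div_le_div_of_nonneg_left (by positivity) (by positivity)
      exact pow_le_pow_left₀ (by positivity) (by linarith) A1
    refine (add_le_add h4 le_rfl).trans ?_
    rw [← add_div]
    apply div_le_div_of_nonneg_right _ (by positivity)
    nlinarith
  have hPB : ∀ v : ℕ, ((PB Bad s K v).card : ℝ) ≤
      (3 * K) ^ 3 * (2 ^ s * (30 * K * s / ((s : ℝ) / 2) ^ A1 * Hh)) := by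
    intro v
    have h1 : ((PB Bad s K v).card : ℝ) ≤ ∑ κ ∈ box3 K, ((PP Bad s κ.1 κ.2.1 κ.2.2 v).card : ℝ) := by
      exact_mod_cast card_biUnion_le
    refine h1.trans ((sum_le_card_nsmul _ _ _ (hPP v)).trans ?_)
    rw [nsmul_eq_mul]
    apply mul_le_mul_of_nonneg_right _ (by positivity)
    have h2 : ((box3 K).card : ℝ) ≤ ((2 * K + 1 : ℕ) : ℝ) ^ 3 := by exact_mod_cast box3_card K
    refine h2.trans ?_
    apply pow_le_pow_left₀ (Nat.cast_nonneg _)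
    push_cast
    linarith
  have hHsum : ∑ v ∈ (Icc 1 (2 ^ (s + 1)) : Finset ℕ), 1 / (v : ℝ) ≤ Hh := by
    rw [hHh]
    refine Hm_mono ?_
    nlinarith [Nat.one_le_two_pow (n := s + 1)]
  calc ∑ v ∈ (Icc 1 (2 ^ (s + 1)) : Finset ℕ), (1 / (v : ℝ)) * ((PB Bad s K v).card : ℝ)
      ≤ ∑ v ∈ (Icc 1 (2 ^ (s + 1)) : Finset ℕ), (1 / (v : ℝ)) *
          ((3 * K) ^ 3 * (2 ^ s * (30 * K * s / ((s : ℝ) / 2) ^ A1 * Hh))) :=
        sum_le_sum fun v _ => mul_le_mul_of_nonneg_left (hPB v) (by positivity)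
    _ = (∑ v ∈ (Icc 1 (2 ^ (s + 1)) : Finset ℕ), 1 / (v : ℝ)) *
          ((3 * K) ^ 3 * (2 ^ s * (30 * K * s / ((s : ℝ) / 2) ^ A1 * Hh))) := by rw [sum_mul]
    _ ≤ (3 * s) * ((3 * K) ^ 3 * (2 ^ s * (30 * K * s / ((s : ℝ) / 2) ^ A1 * (3 * s)))) := by
        have := hHsum.trans hH3
        gcongr
    _ = 2 ^ s * (7290 * (K : ℝ) ^ 4 * s ^ 3 * 2 ^ A1 / (s : ℝ) ^ A1) := by
        rw [div_pow]
        field_simp
        ring
    _ ≤ 2 ^ s * (7290 * (16 ^ B * (s : ℝ) ^ (4 * B)) * s ^ 3 * 2 ^ A1 / (s : ℝ) ^ A1) := by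
        have hK4 : (K : ℝ) ^ 4 ≤ 16 ^ B * (s : ℝ) ^ (4 * B) := by
          rw [hK]
          push_cast
          rw [← pow_mul, mul_comm B 4]
          calc ((s : ℝ) + 1) ^ (4 * B) ≤ (2 * s) ^ (4 * B) := pow_le_pow_left₀ (by positivity) (by linarith) _
            _ = 16 ^ B * (s : ℝ) ^ (4 * B) := by
                rw [mul_pow, pow_mul]
                norm_num
        gcongr
    _ = 2 ^ s * (C * (s : ℝ) ^ (4 * B + 3) / (s : ℝ) ^ A1) := by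
        rw [hC]
        push_cast
        ring
    _ ≤ 2 ^ s * (s * (s : ℝ) ^ (4 * B + 3) / (s : ℝ) ^ A1) := by
        have hCs : (C : ℝ) ≤ s := by exact_mod_cast (by omega : C ≤ s)
        gcongr
    _ = 2 ^ s / (s : ℝ) ^ A := by
        rw [hA1]
        field_simp
        ring

theorem sum_tail (A s₁ S : ℕ) (hs₁ : 2 ≤ s₁) :
    ∑ s ∈ Icc s₁ S, (1 : ℝ) / (s : ℝ) ^ (A + 3) ≤ 1 / (s₁ : ℝ) ^ A := by
  have h0 : (2 : ℝ) ≤ s₁ := by exact_mod_cast hs₁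
  rcases lt_or_ge S s₁ with h | h
  · rw [Icc_eq_empty (by omega), sum_empty]
    positivity
  have h1 : ∀ s ∈ Icc s₁ S, (1 : ℝ) / (s : ℝ) ^ (A + 3) ≤ 1 / (s₁ : ℝ) ^ (A + 1) * ((s : ℝ) ^ 2)⁻¹ := by
    intro s hs
    have h2 : (s₁ : ℝ) ≤ s := by exact_mod_cast (mem_Icc.1 hs).1
    have h00 : (0 : ℝ) < s₁ := by linarith
    have h01 : (0 : ℝ) < s := by linarith
    rw [← one_div, one_div_mul_one_div]
    apply one_div_le_one_div_of_le (by positivity)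
    calc (s₁ : ℝ) ^ (A + 1) * (s : ℝ) ^ 2 ≤ (s : ℝ) ^ (A + 1) * (s : ℝ) ^ 2 := by gcongr
      _ = (s : ℝ) ^ (A + 3) := by ring
  refine (sum_le_sum h1).trans ?_
  rw [← mul_sum]
  have h2 : Icc s₁ S = Ioc (s₁ - 1) S := by
    ext i
    simp only [mem_Icc, mem_Ioc]
    omega
  have h3 := sum_Ioc_inv_sq_le_sub (α := ℝ) (k := s₁ - 1) (n := S) (by omega) (by omega)
  have h4 : ∑ i ∈ Icc s₁ S, ((i : ℝ) ^ 2)⁻¹ ≤ s₁ := by
    rw [h2]
    refine h3.trans ?_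
    have h5 : (1 : ℝ) ≤ ((s₁ - 1 : ℕ) : ℝ) := by exact_mod_cast (by omega : 1 ≤ s₁ - 1)
    have h6 : (((s₁ - 1 : ℕ) : ℝ))⁻¹ ≤ 1 := inv_le_one_of_one_le₀ h5
    have h7 : (0 : ℝ) ≤ (S : ℝ)⁻¹ := by positivity
    linarith
  calc 1 / (s₁ : ℝ) ^ (A + 1) * ∑ i ∈ Icc s₁ S, ((i : ℝ) ^ 2)⁻¹ ≤ 1 / (s₁ : ℝ) ^ (A + 1) * s₁ :=
        mul_le_mul_of_nonneg_left h4 (by positivity)
    _ = 1 / (s₁ : ℝ) ^ A := by
        rw [pow_succ]
        field_simp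

/-- the general theorem on two divisors -/
theorem pair_bound (Bad : ℕ → Prop) (H : H1 Bad) (H' : H2 Bad) (A B : ℕ) :
    ∃ y₀ : ℕ, ∀ y : ℕ, y₀ ≤ y → ∀ N : ℕ,
      ({m : ℕ | 1 ≤ m ∧ m ≤ N ∧ PairBad Bad B y m}.ncard : ℝ) ≤ (N : ℝ) / Real.log y ^ A := by
  classical
  obtain ⟨s₀, hs₀⟩ := level_bound Bad H H' (A + 3) B
  refine ⟨2 ^ (s₀ + 8), fun y hy N => ?_⟩
  have hy0 : 0 < y := lt_of_lt_of_le (by positivity) hy
  obtain ⟨s₁, hs₁⟩ : ∃ s₁, s₁ = Nat.log 2 y := ⟨_, rfl⟩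
  have hs1 : s₀ + 8 ≤ s₁ := by
    rw [hs₁]
    exact (Nat.le_log_iff_pow_le (by norm_num) (by omega)).2 hy
  have hylog : 0 < Real.log y ∧ Real.log y ≤ s₁ := by
    have hy2 : y < 2 ^ (s₁ + 1) := by rw [hs₁]; exact Nat.lt_pow_succ_log_self (by norm_num) y
    have hy2' : (y : ℝ) ≤ 2 ^ (s₁ + 1) := by exact_mod_cast hy2.le
    have hy1 : (256 : ℝ) ≤ y := by
      have : 256 ≤ y := by
        calc 256 = 2 ^ 8 := by norm_num
          _ ≤ 2 ^ (s₀ + 8) := Nat.pow_le_pow_right (by norm_num) (by omega)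
          _ ≤ y := hy
      exact_mod_cast this
    constructor
    · exact Real.log_pos (by linarith)
    · have h1 := Real.log_le_log (by linarith) hy2'
      rw [Real.log_pow] at h1
      have h2 := Real.log_two_lt_d9
      have h3 : (8 : ℝ) ≤ s₁ := by exact_mod_cast (by omega : 8 ≤ s₁)
      push_cast at h1
      nlinarith
  obtain ⟨S, hS⟩ : ∃ S, S = Nat.log 2 N := ⟨_, rfl⟩
  have hsub : {m : ℕ | 1 ≤ m ∧ m ≤ N ∧ PairBad Bad B y m} ⊆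
      (((Icc s₁ S).biUnion (fun s => (Icc 1 (2 ^ (s + 1))).biUnion (fun v =>
        (PB Bad s ((s + 1) ^ B) v).biUnion (fun p =>
          (Ioc 0 N).filter (fun m => p.1 * p.2 * v ∣ m)))) : Finset ℕ) : Set ℕ) := by
    rintro m ⟨hm1, hmN, hbad⟩
    -- symmetrise
    have hsym : ∃ d₁ d₂ : ℕ, d₁ ∣ m ∧ d₂ ∣ m ∧ y ≤ d₁ ∧ d₂ ≤ d₁ ∧ ∃ α β c : ℤ, α ≠ 0 ∧
        |(α : ℝ)| ≤ Real.log d₁ ^ B ∧ |(β : ℝ)| ≤ Real.log d₁ ^ B ∧
        |(c : ℝ)| ≤ Real.log d₁ ^ B ∧ α * d₁ + β * d₂ ≠ 0 ∧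
        0 < α * d₁ + β * d₂ + c ∧ Bad (α * d₁ + β * d₂ + c).toNat := by
      obtain ⟨d₁, d₂, h1, h2, h3, α, β, c, h4, h5, h6, h7, h8, h9, h10, h11⟩ := hbad
      rcases le_total d₂ d₁ with h | h
      · rw [max_eq_left h] at h3 h6 h7 h8
        exact ⟨d₁, d₂, h1, h2, h3, h, α, β, c, h4, h6, h7, h8, h9, h10, h11⟩
      · rw [max_eq_right h] at h3 h6 h7 h8
        rw [add_comm (α * (d₁ : ℤ))] at h9 h10 h11
        exact ⟨d₂, d₁, h2, h1, h3, h, β, α, c, h5, h7, h6, h8, h9, h10, h11⟩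
    obtain ⟨d₁, d₂, h1, h2, hyd, hdd, α, β, c, hα0, hα, hβ, hc, hne, hpos, hB⟩ := hsym
    have hd1 : 1 ≤ d₁ := by omega
    have hd2 : 1 ≤ d₂ := Nat.pos_of_dvd_of_pos h2 hm1
    obtain ⟨g, u, v, hg, hcop, rfl, rfl⟩ : ∃ g u v : ℕ, 0 < g ∧ Nat.Coprime u v ∧ d₁ = u * g ∧ d₂ = v * g := by
      obtain ⟨u, v, h3, h4, h5⟩ := Nat.exists_coprime d₁ d₂
      exact ⟨_, u, v, Nat.gcd_pos_of_pos_left _ hd1, h3, h4, h5⟩
    have hu : 1 ≤ u := by
      rcases Nat.eq_zero_or_pos u with h | h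
      · rw [h, zero_mul] at hd1
        omega
      · exact h
    have hv : 1 ≤ v := by
      rcases Nat.eq_zero_or_pos v with h | h
      · rw [h, zero_mul] at hd2
        omega
      · exact h
    have hvu : v ≤ u := Nat.le_of_mul_le_mul_right hdd hg
    have hdvd : g * u * v ∣ m := by
      obtain ⟨w, hw⟩ := h1
      have h3 : v * g ∣ g * (u * w) := by
        rw [hw] at h2
        have : u * g * w = g * (u * w) := by ring
        rw [this] at h2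
        exact h2
      have h4 : v ∣ u * w := by
        rw [mul_comm v g] at h3
        exact Nat.dvd_of_mul_dvd_mul_left hg h3
      have h5 : v ∣ w := hcop.symm.dvd_of_dvd_mul_left h4
      obtain ⟨z, hz⟩ := h5
      refine ⟨z, ?_⟩
      rw [hw, hz]
      ring
    obtain ⟨s, hs⟩ : ∃ s, s = Nat.log 2 (u * g) := ⟨_, rfl⟩
    have hs2 : 2 ^ s ≤ g * u := by
      rw [hs, mul_comm g u]
      exact Nat.pow_log_le_self 2 (by omega)
    have hs3 : g * u < 2 ^ (s + 1) := by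
      rw [hs, mul_comm g u]
      exact Nat.lt_pow_succ_log_self (by norm_num) _
    have hs4 : s₁ ≤ s := by
      rw [hs₁, hs]
      exact Nat.log_mono_right hyd
    have hs5 : s ≤ S := by
      rw [hs, hS]
      apply Nat.log_mono_right
      exact (Nat.le_of_dvd hm1 h1).trans hmN
    have hKb : ∀ z : ℤ, |(z : ℝ)| ≤ Real.log (u * g : ℕ) ^ B → |z| ≤ (((s + 1) ^ B : ℕ) : ℤ) := by
      intro z hz
      have h3 : Real.log (u * g : ℕ) ≤ ((s + 1 : ℕ) : ℝ) := by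
        have h4 : ((u * g : ℕ) : ℝ) ≤ 2 ^ (s + 1) := by
          rw [mul_comm u g]
          exact_mod_cast hs3.le
        have h5 := Real.log_le_log (by exact_mod_cast hd1) h4
        rw [Real.log_pow] at h5
        have h6 : Real.log 2 ≤ 1 := by
          have := Real.log_two_lt_d9
          linarith
        have h7 : (0 : ℝ) ≤ ((s + 1 : ℕ) : ℝ) := Nat.cast_nonneg _
        nlinarith
      have h4 : Real.log (u * g : ℕ) ^ B ≤ ((s + 1 : ℕ) : ℝ) ^ B :=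
        pow_le_pow_left₀ (Real.log_natCast_nonneg _) h3 B
      have h5 : ((|z| : ℤ) : ℝ) ≤ (((s + 1) ^ B : ℕ) : ℝ) := by
        push_cast at h4 ⊢
        exact hz.trans (by push_cast; exact h4)
      exact_mod_cast h5
    rw [mem_coe, mem_biUnion]
    refine ⟨s, mem_Icc.2 ⟨hs4, hs5⟩, ?_⟩
    rw [mem_biUnion]
    have hgu1 : g ≤ g * u := Nat.le_mul_of_pos_right _ (by omega)
    have hgu2 : u ≤ g * u := Nat.le_mul_of_pos_left _ hg
    refine ⟨v, mem_Icc.2 ⟨hv, by omega⟩, ?_⟩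
    rw [mem_biUnion]
    refine ⟨(g, u), ?_, mem_filter.2 ⟨mem_Ioc.2 ⟨hm1, hmN⟩, hdvd⟩⟩
    unfold PB
    rw [mem_biUnion]
    refine ⟨(α, β, c), ?_, ?_⟩
    · unfold box3
      simp only [mem_filter, mem_product, mem_Icc]
      exact ⟨⟨abs_le.1 (hKb α hα), abs_le.1 (hKb β hβ), abs_le.1 (hKb c hc)⟩, hα0⟩
    · unfold PP
      rw [mem_filter, mem_product]
      have hval : pval α β c v g u = α * ((u * g : ℕ) : ℤ) + β * ((v * g : ℕ) : ℤ) + c := by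
        unfold pval
        push_cast
        ring
      refine ⟨⟨mem_Icc.2 ⟨hg, by simp only; omega⟩, mem_Icc.2 ⟨hu, by simp only; omega⟩⟩,
        hg, hu, hvu, hs2, hs3, ?_, ?_, ?_⟩
      · intro h0
        apply hne
        simp only at h0
        push_cast
        linear_combination (g : ℤ) * h0
      · simp only
        rw [hval]
        exact hpos
      · simp only
        rw [hval]
        exact hB
  have hcard := Set.ncard_le_ncard hsub (finite_toSet _)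
  rw [Set.ncard_coe_finset] at hcard
  have hsum : ((((Icc s₁ S).biUnion (fun s => (Icc 1 (2 ^ (s + 1))).biUnion (fun v =>
        (PB Bad s ((s + 1) ^ B) v).biUnion (fun p =>
          (Ioc 0 N).filter (fun m => p.1 * p.2 * v ∣ m)))) : Finset ℕ)).card : ℝ) ≤
      ∑ s ∈ Icc s₁ S, ∑ v ∈ (Icc 1 (2 ^ (s + 1)) : Finset ℕ), ∑ p ∈ PB Bad s ((s + 1) ^ B) v,
        (((Ioc 0 N).filter (fun m => p.1 * p.2 * v ∣ m)).card : ℝ) := by
    have h : (((Icc s₁ S).biUnion (fun s => (Icc 1 (2 ^ (s + 1))).biUnion (fun v =>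
        (PB Bad s ((s + 1) ^ B) v).biUnion (fun p =>
          (Ioc 0 N).filter (fun m => p.1 * p.2 * v ∣ m)))) : Finset ℕ)).card ≤
      ∑ s ∈ Icc s₁ S, ∑ v ∈ (Icc 1 (2 ^ (s + 1)) : Finset ℕ), ∑ p ∈ PB Bad s ((s + 1) ^ B) v,
        ((Ioc 0 N).filter (fun m => p.1 * p.2 * v ∣ m)).card :=
      card_biUnion_le.trans (sum_le_sum fun s _ => card_biUnion_le.trans
        (sum_le_sum fun v _ => card_biUnion_le))
    exact_mod_cast h
  have hcard' : ({m : ℕ | 1 ≤ m ∧ m ≤ N ∧ PairBad Bad B y m}.ncard : ℝ) ≤ _ :=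
    le_trans (by exact_mod_cast hcard) hsum
  refine hcard'.trans ?_
  have hlev : ∀ s ∈ Icc s₁ S, ∑ v ∈ (Icc 1 (2 ^ (s + 1)) : Finset ℕ), ∑ p ∈ PB Bad s ((s + 1) ^ B) v,
        (((Ioc 0 N).filter (fun m => p.1 * p.2 * v ∣ m)).card : ℝ) ≤ N * (1 / (s : ℝ) ^ (A + 3)) := by
    intro s hs
    have h1 := hs₀ s (by have := (mem_Icc.1 hs).1; omega)
    have h2 : ∀ v ∈ (Icc 1 (2 ^ (s + 1)) : Finset ℕ), ∑ p ∈ PB Bad s ((s + 1) ^ B) v,
        (((Ioc 0 N).filter (fun m => p.1 * p.2 * v ∣ m)).card : ℝ) ≤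
        N * (1 / 2 ^ s) * ((1 / (v : ℝ)) * ((PB Bad s ((s + 1) ^ B) v).card : ℝ)) := by
      intro v hv
      have hv1 := (mem_Icc.1 hv).1
      have hv0 : (0 : ℝ) < v := by exact_mod_cast hv1
      have h3 : ∀ p ∈ PB Bad s ((s + 1) ^ B) v,
          (((Ioc 0 N).filter (fun m => p.1 * p.2 * v ∣ m)).card : ℝ) ≤ N * (1 / 2 ^ s) * (1 / v) := by
        intro p hp
        have h4 : 2 ^ s ≤ p.1 * p.2 := by
          unfold PB at hp
          rw [mem_biUnion] at hp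
          obtain ⟨κ, -, hp⟩ := hp
          unfold PP at hp
          exact (mem_filter.1 hp).2.2.2.2.1
        rw [Nat.Ioc_filter_dvd_card_eq_div]
        have h5 : ((N / (p.1 * p.2 * v) : ℕ) : ℝ) ≤ (N : ℝ) / ((p.1 * p.2 * v : ℕ) : ℝ) := Nat.cast_div_le
        refine h5.trans ?_
        have h6 : (2 : ℝ) ^ s * v ≤ ((p.1 * p.2 * v : ℕ) : ℝ) := by
          have : 2 ^ s * v ≤ p.1 * p.2 * v := Nat.mul_le_mul_right _ h4
          exact_mod_cast this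
        calc (N : ℝ) / ((p.1 * p.2 * v : ℕ) : ℝ) ≤ N / (2 ^ s * v) :=
              div_le_div_of_nonneg_left (Nat.cast_nonneg _) (by positivity) h6
          _ = N * (1 / 2 ^ s) * (1 / v) := by
              field_simp
      refine (sum_le_card_nsmul _ _ _ h3).trans (le_of_eq ?_)
      rw [nsmul_eq_mul]
      ring
    refine (sum_le_sum h2).trans ?_
    rw [← mul_sum]
    calc (N : ℝ) * (1 / 2 ^ s) * ∑ v ∈ (Icc 1 (2 ^ (s + 1)) : Finset ℕ),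
          (1 / (v : ℝ)) * ((PB Bad s ((s + 1) ^ B) v).card : ℝ)
        ≤ (N : ℝ) * (1 / 2 ^ s) * (2 ^ s / (s : ℝ) ^ (A + 3)) :=
          mul_le_mul_of_nonneg_left h1 (by positivity)
      _ = N * (1 / (s : ℝ) ^ (A + 3)) := by
          have h2s : (2 : ℝ) ^ s ≠ 0 := by positivity
          field_simp
  refine (sum_le_sum hlev).trans ?_
  rw [← mul_sum]
  have h3 := sum_tail A s₁ S (by omega)
  have h4 : (1 : ℝ) / (s₁ : ℝ) ^ A ≤ 1 / Real.log y ^ A := by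
    apply one_div_le_one_div_of_le (pow_pos hylog.1 A)
    exact pow_le_pow_left₀ hylog.1.le hylog.2 A
  calc (N : ℝ) * ∑ s ∈ Icc s₁ S, (1 : ℝ) / (s : ℝ) ^ (A + 3) ≤ N * (1 / Real.log y ^ A) :=
        mul_le_mul_of_nonneg_left (h3.trans h4) (Nat.cast_nonneg _)
    _ = N / Real.log y ^ A := by ring

end Run7.h702.DV
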