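import Mathlib

/-!
# Exceptional sets in residue classes: basic definitions and sums
-/

set_option autoImplicit false

namespace Run7.h702.DV

open Finset

open Classical in
/-- the number of the `n` in `(0, 2 ^ j]` with `n ≡ a (mod q)` and `Bad n` -/
noncomputable def cnt (Bad : ℕ → Prop) (j q : ℕ) (a : ℤ) : ℕ :=
  ((Icc 1 (2 ^ j)).filter (fun n : ℕ => (n : ℤ) ≡ a [ZMOD q] ∧ Bad n)).card

/-- bad numbers are rare in the residue classes `a` mod `q` with small `gcd (a, q)` -/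
def H1 (Bad : ℕ → Prop) : Prop :=
  ∀ A T : ℕ, ∃ j₀ : ℕ, ∀ j : ℕ, j₀ ≤ j → ∀ q : ℕ, 1 ≤ q → q ^ 5 ≤ 2 ^ (3 * j) → ∀ a : ℤ,
    Int.gcd a q ≤ j ^ T → (cnt Bad j q a : ℝ) ≤ 2 ^ j / (q * (j : ℝ) ^ A)

/-- bad numbers are rare among the multiples of the `q` that have no divisor in a sparse set -/
def H2 (Bad : ℕ → Prop) : Prop :=
  ∀ A : ℕ, ∃ j₀ : ℕ, ∀ j : ℕ, j₀ ≤ j → ∃ D : Finset ℕ, (∀ δ ∈ D, 1 ≤ δ) ∧
    (∑ δ ∈ D, (1 : ℝ) / δ ≤ 1 / (j : ℝ) ^ A) ∧
    ∀ q : ℕ, 1 ≤ q → q ^ 5 ≤ 2 ^ (3 * j) → (∀ δ ∈ D, ¬ δ ∣ q) →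
      (cnt Bad j q 0 : ℝ) ≤ 2 ^ j / (q * (j : ℝ) ^ A)

/-- harmonic sums -/
noncomputable def Hm (M : ℕ) : ℝ := ∑ i ∈ Icc 1 M, (1 : ℝ) / i

theorem Hm_nonneg (M : ℕ) : 0 ≤ Hm M := sum_nonneg fun _ _ => by positivity

theorem Hm_mono {M M' : ℕ} (h : M ≤ M') : Hm M ≤ Hm M' :=
  sum_le_sum_of_subset_of_nonneg (Icc_subset_Icc_right h) fun _ _ _ => by positivity

theorem Hm_le (M : ℕ) : Hm M ≤ 1 + Real.log M := by
  have h := harmonic_le_one_add_log M
  have e : ((harmonic M : ℚ) : ℝ) = Hm M := by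
    unfold Hm
    rw [harmonic_eq_sum_Icc]
    push_cast
    exact sum_congr rfl fun i _ => by rw [one_div]
  rw [e] at h
  exact h

theorem Hm_two_pow (s : ℕ) : Hm (2 ^ s) ≤ s + 1 := by
  refine (Hm_le _).trans ?_
  rw [Nat.cast_pow, Real.log_pow]
  have h1 : Real.log ((2 : ℕ) : ℝ) ≤ 1 := by
    have := Real.log_two_lt_d9
    push_cast
    linarith
  have h2 : (0 : ℝ) ≤ s := Nat.cast_nonneg _
  nlinarith

/-- sums of reciprocals over a set with large gaps -/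
theorem sparse_sum (S : Finset ℕ) (M K δ : ℕ) (hK : 1 ≤ K) (hδ : 1 ≤ δ) (hM : ∀ u ∈ S, u ≤ M)
    (h1 : ∀ u ∈ S, δ ≤ 2 * K * u) (h2 : ∀ u ∈ S, ∀ v ∈ S, u < v → δ ≤ K * (v - u)) :
    ∑ u ∈ S, (1 : ℝ) / u ≤ (2 * K : ℝ) / δ * Hm (2 * K * M) := by
  have hδ0 : (0 : ℝ) < δ := by exact_mod_cast hδ
  have hK0 : (0 : ℝ) < K := by exact_mod_cast hK
  have hu0 : ∀ u ∈ S, 0 < u := by
    intro u hu
    by_contra h
    have h3 := h1 u hu
    have h4 : u = 0 := by omega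
    rw [h4] at h3
    omega
  have hinj : Set.InjOn (fun u => 2 * K * u / δ) (S : Set ℕ) := by
    have key : ∀ u ∈ S, ∀ v ∈ S, u < v → 2 * K * u / δ < 2 * K * v / δ := by
      intro u hu v hv huv
      have h3 := h2 u hu v hv huv
      obtain ⟨w, rfl⟩ : ∃ w, v = u + w := ⟨v - u, by omega⟩
      have h4 : u + w - u = w := by omega
      rw [h4] at h3
      have h5 : 2 * K * u + δ ≤ 2 * K * (u + w) := by nlinarith
      calc 2 * K * u / δ < (2 * K * u + δ) / δ := by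
            rw [Nat.add_div_right _ (by omega)]
            omega
        _ ≤ 2 * K * (u + w) / δ := Nat.div_le_div_right h5
    intro u hu v hv huv
    rcases lt_trichotomy u v with h | h | h
    · exact absurd huv (key u hu v hv h).ne
    · exact h
    · exact absurd huv (key v hv u hu h).ne'
  have hterm : ∀ u ∈ S, (1 : ℝ) / u ≤ (2 * K : ℝ) / δ * (1 / ((2 * K * u / δ : ℕ) : ℝ)) := by
    intro u hu
    have h3 : 0 < 2 * K * u / δ := Nat.div_pos (h1 u hu) (by omega)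
    have h3' : (0 : ℝ) < ((2 * K * u / δ : ℕ) : ℝ) := by exact_mod_cast h3
    have h4 : (((2 * K * u / δ : ℕ)) : ℝ) ≤ (2 * K * u : ℝ) / δ := by
      have := Nat.cast_div_le (α := ℝ) (m := 2 * K * u) (n := δ)
      push_cast at this
      exact this
    have h5 : (0 : ℝ) < u := by exact_mod_cast hu0 u hu
    rw [mul_one_div, div_le_div_iff₀ h5 h3', one_mul]
    refine h4.trans (le_of_eq ?_)
    field_simp
  calc ∑ u ∈ S, (1 : ℝ) / u ≤ ∑ u ∈ S, (2 * K : ℝ) / δ * (1 / ((2 * K * u / δ : ℕ) : ℝ)) :=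
        sum_le_sum hterm
    _ = (2 * K : ℝ) / δ * ∑ u ∈ S, (1 : ℝ) / ((2 * K * u / δ : ℕ) : ℝ) := by rw [mul_sum]
    _ = (2 * K : ℝ) / δ * ∑ i ∈ S.image (fun u => 2 * K * u / δ), (1 : ℝ) / (i : ℝ) := by
        rw [sum_image hinj]
    _ ≤ (2 * K : ℝ) / δ * Hm (2 * K * M) := by
        apply mul_le_mul_of_nonneg_left _ (by positivity)
        apply sum_le_sum_of_subset_of_nonneg
        · intro i hi
          rw [mem_image] at hi
          obtain ⟨u, hu, rfl⟩ := hi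
          rw [mem_Icc]
          refine ⟨Nat.div_pos (h1 u hu) (by omega), ?_⟩
          exact (Nat.div_le_self _ _).trans (Nat.mul_le_mul_left _ (hM u hu))
        · intro _ _ _
          positivity

/-- the number of the `u` in a set, for which an injective function takes bad values in a class -/
theorem card_le_cnt (Bad : ℕ → Prop) (j q : ℕ) (a : ℤ) (S : Finset ℕ) (f : ℕ → ℤ)
    (hf : Set.InjOn f (S : Set ℕ)) (h0 : ∀ u ∈ S, 0 < f u) (h1 : ∀ u ∈ S, f u ≤ 2 ^ j)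
    (h2 : ∀ u ∈ S, f u ≡ a [ZMOD q]) (h3 : ∀ u ∈ S, Bad (f u).toNat) : S.card ≤ cnt Bad j q a := by
  classical
  unfold cnt
  refine card_le_card_of_injOn (fun u => (f u).toNat) ?_ ?_
  · intro u hu
    have hu' : u ∈ S := hu
    have e : ((f u).toNat : ℤ) = f u := Int.toNat_of_nonneg (h0 u hu').le
    rw [mem_coe, mem_filter, mem_Icc]
    refine ⟨⟨?_, ?_⟩, ?_, h3 u hu'⟩
    · have h6 := h0 u hu'
      change 1 ≤ (f u).toNat
      omega
    · have := h1 u hu'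
      have h5 : ((f u).toNat : ℤ) ≤ 2 ^ j := by rw [e]; exact this
      exact_mod_cast h5
    · rw [e]
      exact h2 u hu'
  · intro u hu v hv huv
    apply hf hu hv
    have e1 := Int.toNat_of_nonneg (h0 u hu).le
    have e2 := Int.toNat_of_nonneg (h0 v hv).le
    have huv' : (f u).toNat = (f v).toNat := huv
    rw [← e1, ← e2, huv']

end Run7.h702.DV
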