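import Pool.Agent.Run7.h702.DV.Base

/-!
# All factorisations `m = d e` and all small coefficients: the counting argument
-/

set_option autoImplicit false

namespace Run7.h702.DV

open Finset

/-- the value `γ d e + β d + α e + c` -/
def val (α β γ c : ℤ) (d e : ℕ) : ℤ := γ * d * e + β * d + α * e + c

theorem val_le {K N d e : ℕ} {α β γ c : ℤ} (hα : |α| ≤ K) (hβ : |β| ≤ K) (hγ : |γ| ≤ K) (hc : |c| ≤ K)
    (hd : 1 ≤ d) (he : 1 ≤ e) (hde : d * e ≤ N) : val α β γ c d e ≤ ((4 * K * N : ℕ) : ℤ) := by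
  unfold val
  have hd' : (1 : ℤ) ≤ d := by exact_mod_cast hd
  have he' : (1 : ℤ) ≤ e := by exact_mod_cast he
  have hde' : (d : ℤ) * e ≤ N := by exact_mod_cast hde
  have hK : (0 : ℤ) ≤ K := Nat.cast_nonneg _
  have h1 : γ * d * e ≤ K * (d * e) := by
    have := le_of_abs_le hγ
    have h0 : (0 : ℤ) ≤ d * e := by positivity
    nlinarith
  have h2 : β * d ≤ K * (d * e) := by
    have := le_of_abs_le hβ
    have h0 : β * d ≤ K * d := mul_le_mul_of_nonneg_right this (by omega)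
    have h3 : (d : ℤ) ≤ d * e := le_mul_of_one_le_right (by omega) he'
    nlinarith
  have h3 : α * e ≤ K * (d * e) := by
    have := le_of_abs_le hα
    have h0 : α * e ≤ K * e := mul_le_mul_of_nonneg_right this (by omega)
    have h3 : (e : ℤ) ≤ d * e := le_mul_of_one_le_left (by omega) hd'
    nlinarith
  have h4 : c ≤ K * (d * e) := by
    have := le_of_abs_le hc
    have h3 : (1 : ℤ) ≤ d * e := by nlinarith
    nlinarith
  push_cast
  nlinarith

open Classical in
/-- the `e` with a bad value -/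
noncomputable def Es (Bad : ℕ → Prop) (N : ℕ) (α β γ c : ℤ) (d : ℕ) : Finset ℕ :=
  (Icc 1 (N / d)).filter (fun e => 0 < val α β γ c d e ∧ Bad (val α β γ c d e).toNat)

theorem natAbs_le {K d : ℕ} {α γ : ℤ} (hα : |α| ≤ K) (hγ : |γ| ≤ K) (hd : 1 ≤ d) :
    (γ * d + α).natAbs ≤ 2 * K * d := by
  have h1 : |γ * d + α| ≤ K * d + K := by
    refine (abs_add_le _ _).trans (add_le_add ?_ hα)
    rw [abs_mul, Nat.abs_cast]
    exact mul_le_mul_of_nonneg_right hγ (Nat.cast_nonneg _)
  have h2 : (((γ * d + α).natAbs : ℕ) : ℤ) ≤ ((K * d + K : ℕ) : ℤ) := by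
    rw [Int.natCast_natAbs]
    push_cast
    exact h1
  have h3 : (γ * d + α).natAbs ≤ K * d + K := by exact_mod_cast h2
  nlinarith

theorem le_natAbs {K d : ℕ} {α γ : ℤ} (hα : |α| ≤ K) (hK : 1 ≤ K) (hγ : γ ≠ 0) (h0 : γ * d + α ≠ 0) :
    d ≤ 2 * K * (γ * d + α).natAbs := by
  have h1 : 1 ≤ (γ * d + α).natAbs := Int.one_le_abs h0 |> fun h => by
    rw [← Int.natCast_natAbs] at h
    exact_mod_cast h
  rcases le_or_gt d (2 * K) with h | h
  · nlinarith
  · have h2 : (d : ℤ) - K ≤ |γ * d + α| := by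
      have h3 : |γ * d| ≤ |γ * d + α| + |α| := by
        have := abs_sub (γ * d + α) α
        rw [add_sub_cancel_right] at this
        exact this
      have h4 : (d : ℤ) ≤ |γ * d| := by
        rw [abs_mul, Nat.abs_cast]
        exact le_mul_of_one_le_left (Nat.cast_nonneg _) (Int.one_le_abs hγ)
      linarith
    have h5 : (d : ℤ) ≤ (((γ * d + α).natAbs + K : ℕ) : ℤ) := by
      push_cast
      linarith
    have h6 : d ≤ (γ * d + α).natAbs + K := by exact_mod_cast h5
    have h7 : d ≤ 2 * (γ * d + α).natAbs := by omega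
    nlinarith

/-- the number of `e` with a bad value, for given `d` and given coefficients -/
theorem Es_card (Bad : ℕ → Prop) (N j K d A : ℕ) (D : Finset ℕ) (α β γ c : ℤ) (hK : 1 ≤ K) (hd : 1 ≤ d)
    (hα : |α| ≤ K) (hβ : |β| ≤ K) (hγ : |γ| ≤ K) (hc : |c| ≤ K) (hγ0 : γ ≠ 0) (h0 : γ * d + α ≠ 0)
    (hj : 4 * K * N ≤ 2 ^ j) (hj1 : 1 ≤ j) (hq : (2 * K * d) ^ 5 ≤ 2 ^ (3 * j))
    (P1 : ∀ q : ℕ, 1 ≤ q → q ^ 5 ≤ 2 ^ (3 * j) → ∀ a : ℤ, Int.gcd a q ≤ 2 * K ^ 2 →
      (cnt Bad j q a : ℝ) ≤ 2 ^ j / (q * (j : ℝ) ^ A))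
    (P2 : ∀ q : ℕ, 1 ≤ q → q ^ 5 ≤ 2 ^ (3 * j) → (∀ δ ∈ D, ¬ δ ∣ q) →
      (cnt Bad j q 0 : ℝ) ≤ 2 ^ j / (q * (j : ℝ) ^ A)) :
    ((Es Bad N α β γ c d).card : ℝ) ≤ 2 ^ j * (2 * K) / (j : ℝ) ^ A * (1 / d) ∨
      ∃ δ ∈ D, (δ : ℤ) ∣ (γ / Int.gcd γ α) * d + α / Int.gcd γ α := by
  classical
  have hd0 : (0 : ℝ) < d := by exact_mod_cast hd
  have hj0 : (0 : ℝ) < j := by exact_mod_cast hj1
  -- the final estimate from a bound by a modulus
  have fin : ∀ q : ℕ, 1 ≤ q → d ≤ 2 * K * q → ((Es Bad N α β γ c d).card : ℝ) ≤ 2 ^ j / (q * (j : ℝ) ^ A) →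
      ((Es Bad N α β γ c d).card : ℝ) ≤ 2 ^ j * (2 * K) / (j : ℝ) ^ A * (1 / d) := by
    intro q hq1 hdq h
    refine h.trans ?_
    have hq0 : (0 : ℝ) < q := by exact_mod_cast hq1
    have hdq' : (d : ℝ) ≤ 2 * K * q := by exact_mod_cast hdq
    rw [mul_one_div, div_div, div_le_div_iff₀ (by positivity) (by positivity)]
    have h3 : (0 : ℝ) ≤ 2 ^ j * (j : ℝ) ^ A := by positivity
    calc (2 : ℝ) ^ j * ((j : ℝ) ^ A * d) = (2 ^ j * (j : ℝ) ^ A) * d := by ring
      _ ≤ (2 ^ j * (j : ℝ) ^ A) * (2 * K * q) := mul_le_mul_of_nonneg_left hdq' h3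
      _ = 2 ^ j * (2 * K) * (q * (j : ℝ) ^ A) := by ring
  have hval : ∀ e : ℕ, val α β γ c d e = (γ * d + α) * e + (β * d + c) := by
    intro e
    unfold val
    ring
  have hmem : ∀ e ∈ Es Bad N α β γ c d, 1 ≤ e ∧ d * e ≤ N ∧ 0 < val α β γ c d e ∧
      Bad (val α β γ c d e).toNat := by
    intro e he
    unfold Es at he
    rw [mem_filter, mem_Icc] at he
    refine ⟨he.1.1, ?_, he.2.1, he.2.2⟩
    rw [mul_comm]
    exact (Nat.le_div_iff_mul_le (by omega)).1 he.1.2
  have hle : ∀ e ∈ Es Bad N α β γ c d, val α β γ c d e ≤ 2 ^ j := by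
    intro e he
    obtain ⟨h1, h2, -⟩ := hmem e he
    refine (val_le hα hβ hγ hc hd h1 h2).trans ?_
    exact_mod_cast hj
  have hinj : Set.InjOn (fun e : ℕ => val α β γ c d e) (Es Bad N α β γ c d : Set ℕ) := by
    intro e _ e' _ h
    simp only [hval] at h
    have h2 : (γ * d + α) * (e : ℤ) = (γ * d + α) * e' := by linarith
    exact_mod_cast mul_left_cancel₀ h0 h2
  by_cases hΔ : γ * c - α * β = 0
  · -- the degenerate case
    by_cases hreg : ∃ δ ∈ D, (δ : ℤ) ∣ (γ / Int.gcd γ α) * d + α / Int.gcd γ α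
    · exact Or.inr hreg
    left
    push Not at hreg
    obtain ⟨g, hg⟩ : ∃ g : ℕ, g = Int.gcd γ α := ⟨_, rfl⟩
    have hg0 : 0 < g := by rw [hg]; exact Int.gcd_pos_of_ne_zero_left _ hγ0
    have hg0' : (0 : ℤ) < g := by exact_mod_cast hg0
    obtain ⟨γ', hγ'⟩ : (g : ℤ) ∣ γ := by rw [hg]; exact Int.gcd_dvd_left ..
    obtain ⟨α', hα'⟩ : (g : ℤ) ∣ α := by rw [hg]; exact Int.gcd_dvd_right ..
    have e1 : γ / Int.gcd γ α = γ' := by
      rw [← hg]
      conv_lhs => rw [hγ']
      rw [Int.mul_ediv_cancel_left _ hg0'.ne']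
    have e2 : α / Int.gcd γ α = α' := by
      rw [← hg]
      conv_lhs => rw [hα']
      rw [Int.mul_ediv_cancel_left _ hg0'.ne']
    have hcop : IsCoprime γ' α' := by
      rw [← e1, ← e2]
      exact Int.isCoprime_iff_gcd_eq_one.2 (Int.gcd_ediv_gcd_ediv_gcd (by rw [← hg]; exact hg0))
    rw [e1, e2] at hreg
    have h00 : γ' * d + α' ≠ 0 := by
      intro h
      apply h0
      rw [hγ', hα']
      linear_combination (g : ℤ) * h
    have hγ'0 : γ' ≠ 0 := by
      rintro rfl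
      exact hγ0 (by rw [hγ', mul_zero])
    have hab : ∀ {z z' : ℤ}, z = g * z' → |z| ≤ K → |z'| ≤ K := by
      intro z z' hz h
      refine le_trans ?_ h
      rw [hz, abs_mul, Nat.abs_cast]
      exact le_mul_of_one_le_left (abs_nonneg _) (by omega)
    have hα'K := hab hα' hα
    have hγ'K := hab hγ' hγ
    have hq1 : 1 ≤ (γ' * d + α').natAbs := by
      have := Int.one_le_abs h00
      rw [← Int.natCast_natAbs] at this
      exact_mod_cast this
    apply fin (γ' * d + α').natAbs hq1 (le_natAbs hα'K hK hγ'0 h00)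
    refine le_trans ?_ (P2 _ hq1 ((Nat.pow_le_pow_left (natAbs_le hα'K hγ'K hd) 5).trans hq) ?_)
    · have hcard := card_le_cnt Bad j (γ' * d + α').natAbs 0 (Es Bad N α β γ c d)
        (fun e => val α β γ c d e) hinj (fun e he => (hmem e he).2.2.1) hle ?_
        (fun e he => (hmem e he).2.2.2)
      · exact_mod_cast hcard
      · intro e _
        rw [Int.modEq_zero_iff_dvd, Int.natAbs_dvd]
        have h5 : γ' * c = α' * β := by
          have h6 : (g : ℤ) * (γ' * c - α' * β) = 0 := by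
            rw [hγ', hα'] at hΔ
            linear_combination hΔ
          rcases mul_eq_zero.1 h6 with h | h
          · exact absurd h hg0'.ne'
          · linarith
        have h6 : γ' * val α β γ c d e = (γ' * d + α') * (γ * e + β) := by
          unfold val
          rw [hγ', hα']
          linear_combination h5
        have h7 : IsCoprime (γ' * d + α') γ' := by
          have h8 : IsCoprime γ' (γ' * d + α') := by
            rw [add_comm]
            exact (IsCoprime.add_mul_left_right_iff).2 hcop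
          exact h8.symm
        exact h7.dvd_of_dvd_mul_left (Dvd.intro _ h6.symm)
    · intro δ hδ hdvd
      exact hreg δ hδ (Int.natCast_dvd.2 hdvd)
  · left
    have hq1 : 1 ≤ (γ * d + α).natAbs := by
      have := Int.one_le_abs h0
      rw [← Int.natCast_natAbs] at this
      exact_mod_cast this
    apply fin (γ * d + α).natAbs hq1 (le_natAbs hα hK hγ0 h0)
    refine le_trans ?_ (P1 _ hq1 ((Nat.pow_le_pow_left (natAbs_le hα hγ hd) 5).trans hq) (β * d + c) ?_)
    · have hcard := card_le_cnt Bad j (γ * d + α).natAbs (β * d + c) (Es Bad N α β γ c d)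
        (fun e => val α β γ c d e) hinj (fun e he => (hmem e he).2.2.1) hle ?_
        (fun e he => (hmem e he).2.2.2)
      · exact_mod_cast hcard
      · intro e _
        apply Int.ModEq.symm
        rw [Int.modEq_iff_dvd, Int.natAbs_dvd]
        refine ⟨e, ?_⟩
        change val α β γ c d e - _ = _
        rw [hval]
        ring
    · have h3 : (Int.gcd (β * d + c) ((γ * d + α).natAbs : ℤ) : ℤ) ∣ γ * c - α * β := by
        have h4 : (Int.gcd (β * d + c) ((γ * d + α).natAbs : ℤ) : ℤ) ∣ β * d + c := Int.gcd_dvd_left ..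
        have h5 : (Int.gcd (β * d + c) ((γ * d + α).natAbs : ℤ) : ℤ) ∣ γ * d + α :=
          (Int.gcd_dvd_right ..).trans (Int.natAbs_dvd.2 dvd_rfl)
        have h6 : γ * c - α * β = γ * (β * d + c) - β * (γ * d + α) := by ring
        rw [h6]
        exact dvd_sub (h4.mul_left _) (h5.mul_left _)
      have h7 : Int.gcd (β * d + c) ((γ * d + α).natAbs : ℤ) ≤ (γ * c - α * β).natAbs :=
        Nat.le_of_dvd (Int.natAbs_pos.2 hΔ) (Int.natCast_dvd.1 h3)
      refine h7.trans ?_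
      have h8 : |γ * c - α * β| ≤ 2 * K ^ 2 := by
        refine (abs_sub _ _).trans ?_
        rw [abs_mul, abs_mul]
        have h9 := mul_le_mul hγ hc (abs_nonneg _) (Nat.cast_nonneg K)
        have h10 := mul_le_mul hα hβ (abs_nonneg _) (Nat.cast_nonneg K)
        nlinarith
      have h11 : (((γ * c - α * β).natAbs : ℕ) : ℤ) ≤ ((2 * K ^ 2 : ℕ) : ℤ) := by
        rw [Int.natCast_natAbs]
        push_cast
        exact h8
      exact_mod_cast h11

end Run7.h702.DV
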