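import Pool.Agent.Run7.h702.DV.Fac

/-!
# Linear combinations of two divisors: the counting argument
-/

set_option autoImplicit false

namespace Run7.h702.DV

open Finset

/-- the value `g (α u + β v) + c` -/
def pval (α β c : ℤ) (v g u : ℕ) : ℤ := g * (α * u + β * v) + c

/-- the conditions on `g` and `u` -/
def Cd (Bad : ℕ → Prop) (s : ℕ) (α β c : ℤ) (v g u : ℕ) : Prop :=
  1 ≤ g ∧ 1 ≤ u ∧ v ≤ u ∧ 2 ^ s ≤ g * u ∧ g * u < 2 ^ (s + 1) ∧ α * u + β * v ≠ 0 ∧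
    0 < pval α β c v g u ∧ Bad (pval α β c v g u).toNat

/-- the estimates on the level `j` -/
structure Lev (Bad : ℕ → Prop) (K A j : ℕ) (D : Finset ℕ) : Prop where
  pos : ∀ δ ∈ D, 1 ≤ δ
  sum : ∑ δ ∈ D, (1 : ℝ) / δ ≤ 1 / (j : ℝ) ^ A
  P1 : ∀ q : ℕ, 1 ≤ q → q ^ 5 ≤ 2 ^ (3 * j) → ∀ a : ℤ, Int.gcd a q ≤ K →
      (cnt Bad j q a : ℝ) ≤ 2 ^ j / (q * (j : ℝ) ^ A)
  P2 : ∀ q : ℕ, 1 ≤ q → q ^ 5 ≤ 2 ^ (3 * j) → (∀ δ ∈ D, ¬ δ ∣ q) →
      (cnt Bad j q 0 : ℝ) ≤ 2 ^ j / (q * (j : ℝ) ^ A)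

theorem Lev.use {Bad : ℕ → Prop} {K A j : ℕ} {D : Finset ℕ} (h : Lev Bad K A j D) (q : ℕ) (hq : 1 ≤ q)
    (hq5 : q ^ 5 ≤ 2 ^ (3 * j)) (c : ℤ) (hc : |c| ≤ K) (S : Finset ℕ) (f : ℕ → ℤ)
    (hf : Set.InjOn f (S : Set ℕ)) (h0 : ∀ u ∈ S, 0 < f u) (h1 : ∀ u ∈ S, f u ≤ 2 ^ j)
    (h2 : ∀ u ∈ S, f u ≡ c [ZMOD q]) (h3 : ∀ u ∈ S, Bad (f u).toNat) :
    (S.card : ℝ) ≤ 2 ^ j / (q * (j : ℝ) ^ A) ∨ ∃ δ ∈ D, δ ∣ q := by
  have hcard : (S.card : ℝ) ≤ cnt Bad j q c := by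
    exact_mod_cast card_le_cnt Bad j q c S f hf h0 h1 h2 h3
  by_cases hc0 : c = 0
  · by_cases hreg : ∃ δ ∈ D, δ ∣ q
    · exact Or.inr hreg
    · left
      push Not at hreg
      rw [hc0] at hcard
      exact hcard.trans (h.P2 q hq hq5 hreg)
  · left
    refine hcard.trans (h.P1 q hq hq5 c ?_)
    have h4 : Int.gcd c q ≤ c.natAbs :=
      Nat.le_of_dvd (Int.natAbs_pos.2 hc0) (Int.natCast_dvd.1 (Int.gcd_dvd_left ..))
    have h5 : ((c.natAbs : ℕ) : ℤ) ≤ K := by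
      rw [Int.natCast_natAbs]
      exact hc
    exact h4.trans (by exact_mod_cast h5)

open Classical in
noncomputable def Ug (Bad : ℕ → Prop) (s : ℕ) (α β c : ℤ) (v g : ℕ) : Finset ℕ :=
  (Icc 1 (2 ^ (s + 1))).filter (fun u => Cd Bad s α β c v g u ∧ g ≤ u)

open Classical in
noncomputable def Vu (Bad : ℕ → Prop) (s : ℕ) (α β c : ℤ) (v u : ℕ) : Finset ℕ :=
  (Icc 1 (2 ^ (s + 1))).filter (fun g => Cd Bad s α β c v g u ∧ u < g)

theorem lin_le {K u v : ℕ} {α β : ℤ} (hα : |α| ≤ K) (hβ : |β| ≤ K) (hv : v ≤ u) :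
    |α * u + β * v| ≤ 2 * K * u := by
  have h1 : |α * u| ≤ K * u := by
    rw [abs_mul, Nat.abs_cast]
    exact mul_le_mul_of_nonneg_right hα (Nat.cast_nonneg _)
  have h2 : |β * v| ≤ K * u := by
    rw [abs_mul, Nat.abs_cast]
    exact mul_le_mul hβ (by exact_mod_cast hv) (Nat.cast_nonneg _) (Nat.cast_nonneg _)
  have h3 := abs_add_le (α * (u : ℤ)) (β * v)
  linarith

/-- the count of the `g` or `u` up to `2 ^ (s + 1) / x` -/
theorem card_le_div (s x : ℕ) (hx : 1 ≤ x) (S : Finset ℕ) (h : ∀ y ∈ S, 1 ≤ y ∧ x * y < 2 ^ (s + 1)) :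
    (S.card : ℝ) ≤ 2 ^ (s + 1) * (1 / (x : ℝ)) := by
  have h1 : S ⊆ Icc 1 (2 ^ (s + 1) / x) := by
    intro y hy
    rw [mem_Icc]
    refine ⟨(h y hy).1, ?_⟩
    rw [Nat.le_div_iff_mul_le (by omega), mul_comm]
    exact (h y hy).2.le
  have h2 := card_le_card h1
  rw [Nat.card_Icc, Nat.add_sub_cancel] at h2
  have h3 : ((2 ^ (s + 1) / x : ℕ) : ℝ) ≤ ((2 ^ (s + 1) : ℕ) : ℝ) / x := Nat.cast_div_le
  have h4 : (S.card : ℝ) ≤ ((2 ^ (s + 1) / x : ℕ) : ℝ) := by exact_mod_cast h2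
  rw [mul_one_div]
  push_cast at h3
  linarith

/-- the first range `g ≤ u` -/
theorem Ug_card (Bad : ℕ → Prop) (s K A j : ℕ) (D : Finset ℕ) (α β c : ℤ) (v g : ℕ)
    (hα : |α| ≤ K) (hβ : |β| ≤ K) (hc : |c| ≤ K) (hα0 : α ≠ 0) (hK : 1 ≤ K) (hg : 1 ≤ g) (hs : 1 ≤ s)
    (hL : Lev Bad K A j D) (hj : 5 * K * 2 ^ s ≤ 2 ^ j) (hj' : (2 : ℝ) ^ j ≤ 10 * K * 2 ^ s) :
    ((Ug Bad s α β c v g).card : ℝ) ≤ 10 * K * 2 ^ s / (s : ℝ) ^ A * (1 / g) ∨ ∃ δ ∈ D, δ ∣ g := by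
  classical
  have hmem : ∀ u ∈ Ug Bad s α β c v g, Cd Bad s α β c v g u ∧ g ≤ u := fun u hu => (mem_filter.1 hu).2
  have hg0 : (0 : ℝ) < g := by exact_mod_cast hg
  have hs0 : (0 : ℝ) < s := by exact_mod_cast hs
  have hsj : s ≤ j := by
    have h1 : 2 ^ s ≤ 2 ^ j := by nlinarith [Nat.one_le_two_pow (n := s)]
    exact (Nat.pow_le_pow_iff_right (by norm_num)).1 h1
  have hsj' : (s : ℝ) ≤ j := by exact_mod_cast hsj
  rcases (Ug Bad s α β c v g).eq_empty_or_nonempty with he | ⟨u₀, hu₀⟩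
  · left
    rw [he, card_empty, Nat.cast_zero]
    positivity
  have hg5 : g ^ 5 ≤ 2 ^ (3 * j) := by
    obtain ⟨⟨-, -, -, -, h4, -⟩, h5⟩ := hmem u₀ hu₀
    have h6 : g * g ≤ 2 ^ (s + 1) := by nlinarith
    rw [← Nat.pow_le_pow_iff_left (two_ne_zero)]
    calc (g ^ 5) ^ 2 = (g * g) ^ 5 := by ring
      _ ≤ (2 ^ (s + 1)) ^ 5 := Nat.pow_le_pow_left h6 5
      _ = 2 ^ (5 * s + 5) := by rw [← pow_mul]; congr 1; ring
      _ ≤ 2 ^ (6 * j) := by
          apply Nat.pow_le_pow_right (by norm_num)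
          have h7 : s + 1 ≤ j := by
            have h8 : 2 ^ (s + 1) ≤ 2 ^ j := by
              rw [pow_succ]
              nlinarith [Nat.one_le_two_pow (n := s)]
            exact (Nat.pow_le_pow_iff_right (by norm_num)).1 h8
          omega
      _ = (2 ^ (3 * j)) ^ 2 := by rw [← pow_mul]; congr 1; ring
  have hU : ((Ug Bad s α β c v g).card : ℝ) ≤ 2 ^ j / (g * (j : ℝ) ^ A) ∨ ∃ δ ∈ D, δ ∣ g := by
    refine hL.use g hg hg5 c hc (Ug Bad s α β c v g) (fun u => pval α β c v g u) ?_ ?_ ?_ ?_ ?_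
    · intro u _ u' _ h
      unfold pval at h
      simp only at h
      have hg0' : (g : ℤ) ≠ 0 := by exact_mod_cast (by omega : g ≠ 0)
      have h2 : (g : ℤ) * (α * u + β * v) = g * (α * u' + β * v) := by linarith
      have h3 := mul_left_cancel₀ hg0' h2
      have h4 : α * (u : ℤ) = α * u' := by linarith
      exact_mod_cast mul_left_cancel₀ hα0 h4
    · intro u hu
      exact (hmem u hu).1.2.2.2.2.2.2.1
    · intro u hu
      obtain ⟨⟨-, h2, h3, -, h4, -⟩, h5⟩ := hmem u hu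
      have h6 := lin_le hα hβ h3
      have h7 : α * u + β * v ≤ 2 * K * u := (le_abs_self _).trans h6
      have h8 : (g : ℤ) * (α * u + β * v) ≤ g * (2 * K * u) := mul_le_mul_of_nonneg_left h7 (Nat.cast_nonneg _)
      have h9 : ((g * u : ℕ) : ℤ) ≤ ((2 ^ (s + 1) : ℕ) : ℤ) := by exact_mod_cast h4.le
      push_cast at h9
      have h10 : ((5 * K * 2 ^ s : ℕ) : ℤ) ≤ ((2 ^ j : ℕ) : ℤ) := by exact_mod_cast hj
      push_cast at h10
      have h11 := le_of_abs_le hc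
      have hK0 : (0 : ℤ) ≤ K := Nat.cast_nonneg _
      have h12 : (1 : ℤ) ≤ 2 ^ s := by exact_mod_cast Nat.one_le_two_pow
      change (g : ℤ) * (α * u + β * v) + c ≤ 2 ^ j
      have h13 : (g : ℤ) * (2 * K * u) = 2 * K * (g * u) := by ring
      have h14 : 2 * (K : ℤ) * (g * u) ≤ 2 * K * 2 ^ (s + 1) := mul_le_mul_of_nonneg_left h9 (by positivity)
      have h15 : (2 : ℤ) ^ (s + 1) = 2 * 2 ^ s := by ring
      rw [h15] at h14
      nlinarith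
    · intro u _
      unfold pval
      apply Int.ModEq.symm
      rw [Int.modEq_iff_dvd]
      refine ⟨α * u + β * v, ?_⟩
      ring
    · intro u hu
      exact (hmem u hu).1.2.2.2.2.2.2.2
  rcases hU with h | h
  · left
    refine h.trans ?_
    rw [mul_one_div, div_div, mul_comm ((s : ℝ) ^ A) (g : ℝ)]
    apply div_le_div₀ (by positivity) hj' (by positivity)
    exact mul_le_mul_of_nonneg_left (pow_le_pow_left₀ hs0.le hsj' A) hg0.le
  · exact Or.inr h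

/-- the second range `u < g` -/
theorem Vu_card (Bad : ℕ → Prop) (s K A : ℕ) (D : ℕ → Finset ℕ) (α β c : ℤ) (v u : ℕ)
    (hα : |α| ≤ K) (hβ : |β| ≤ K) (hc : |c| ≤ K) (hK : 1 ≤ K) (hu : 1 ≤ u) (hs : 1 ≤ s)
    (hL : ∀ j : ℕ, (s + 1) / 2 ≤ j → j ≤ 2 * s → Lev Bad K A j (D j)) (hKs : 16 * K ^ 4 ≤ 2 ^ s) :
    ((Vu Bad s α β c v u).card : ℝ) ≤ 8 * 2 ^ s / ((s : ℝ) / 2) ^ A * (1 / u) ∨
      (α * u + β * v ≠ 0 ∧ ∃ j : ℕ, (s + 1) / 2 ≤ j ∧ j ≤ 2 * s ∧ ∃ δ ∈ D j, (δ : ℤ) ∣ α * u + β * v) := by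
  classical
  have hmem : ∀ g ∈ Vu Bad s α β c v u, Cd Bad s α β c v g u ∧ u < g := fun u hu => (mem_filter.1 hu).2
  have hu0 : (0 : ℝ) < u := by exact_mod_cast hu
  have hs0 : (0 : ℝ) < s := by exact_mod_cast hs
  rcases (Vu Bad s α β c v u).eq_empty_or_nonempty with he | ⟨g₀, hg₀⟩
  · left
    rw [he, card_empty, Nat.cast_zero]
    positivity
  obtain ⟨⟨hg1, -, hvu, hgs, hgs', hne, hpos, -⟩, hug⟩ := hmem g₀ hg₀
  -- `u ^ 2 < 2 ^ (s + 1)`
  have huu : u * u < 2 ^ (s + 1) := by nlinarith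
  have hK4 : K ≤ K ^ 4 := Nat.le_self_pow (by norm_num) K
  -- every `g` is larger than `K`
  have hgK : ∀ g : ℕ, u < g → 2 ^ s ≤ g * u → K < g := by
    intro g h1 h2
    by_contra h3
    have h4 : g * u ≤ K * K := Nat.mul_le_mul (by omega) (by omega)
    have h5 : K * K ≤ K ^ 4 := by
      calc K * K = K ^ 2 := by ring
        _ ≤ K ^ 4 := Nat.pow_le_pow_right (by omega) (by norm_num)
    have h6 : 1 ≤ K ^ 4 := Nat.one_le_pow _ _ (by omega)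
    omega
  -- `k = α u + β v` is positive
  have hkpos : 0 < α * u + β * v := by
    by_contra h
    have h1 : α * u + β * v ≤ -1 := by omega
    have h2 : (g₀ : ℤ) * (α * u + β * v) ≤ g₀ * (-1) := mul_le_mul_of_nonneg_left h1 (Nat.cast_nonneg _)
    have h3 := hgK g₀ hug hgs
    have h3' : (K : ℤ) < g₀ := by exact_mod_cast h3
    have h4 := le_of_abs_le hc
    unfold pval at hpos
    linarith
  obtain ⟨k, hk⟩ : ∃ k : ℕ, (k : ℤ) = α * u + β * v := ⟨(α * u + β * v).toNat, Int.toNat_of_nonneg hkpos.le⟩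
  have hk1 : 1 ≤ k := by
    have : (0 : ℤ) < k := by rw [hk]; exact hkpos
    exact_mod_cast this
  have hk0 : (0 : ℝ) < k := by exact_mod_cast hk1
  have hkK : k ≤ 2 * K * u := by
    have h1 := (le_abs_self _).trans (lin_le hα hβ hvu)
    rw [← hk] at h1
    exact_mod_cast h1
  -- the level
  obtain ⟨M, hM⟩ : ∃ M, M = 2 ^ (s + 2) * k / u := ⟨_, rfl⟩
  have hMle : M * u ≤ 2 ^ (s + 2) * k := by rw [hM]; exact Nat.div_mul_le_self _ _
  have hMlt : 2 ^ (s + 2) * k < (M + 1) * u := by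
    rw [hM]
    have := Nat.lt_div_mul_add (a := 2 ^ (s + 2) * k) (b := u) (by omega)
    rw [add_mul, one_mul]
    exact this
  have h2s : 1 ≤ 2 ^ s := Nat.one_le_two_pow
  have hs2 : 2 ^ (s + 2) = 4 * 2 ^ s := by ring
  have hs1 : 2 ^ (s + 1) = 2 * 2 ^ s := by ring
  have hu2s : u < 2 * 2 ^ s := by nlinarith
  have hM2 : 2 ≤ M := by
    by_contra h
    have h1 : M + 1 ≤ 2 := by omega
    have h2 : (M + 1) * u ≤ 2 * u := Nat.mul_le_mul_right _ h1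
    have h3 : 2 ^ (s + 2) ≤ 2 ^ (s + 2) * k := Nat.le_mul_of_pos_right _ (by omega)
    omega
  obtain ⟨j, hj⟩ : ∃ j, j = Nat.clog 2 M := ⟨_, rfl⟩
  have hjM : M ≤ 2 ^ j := by rw [hj]; exact Nat.le_pow_clog (by norm_num) _
  have hjM2 : 2 ^ j ≤ 2 * M := by
    have h1 : 2 ^ (Nat.clog 2 M).pred < M := Nat.pow_pred_clog_lt_self (by norm_num) (by omega)
    rw [← hj] at h1
    have h2 : 0 < j := by
      rcases Nat.eq_zero_or_pos j with h | h
      · rw [h, pow_zero] at hjM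
        omega
      · exact h
    obtain ⟨i, hi⟩ : ∃ i, j = i + 1 := ⟨j - 1, by omega⟩
    rw [hi] at h1 ⊢
    rw [Nat.pred_succ] at h1
    rw [pow_succ]
    omega
  have hM1 : M + 1 ≤ 2 * 2 ^ j := by omega
  -- lower bound for `j`
  have hjlo : s ≤ 2 * j := by
    have h1 : (2 ^ (s + 2) * k) * (2 ^ (s + 2) * k) ≤ ((M + 1) * u) * ((M + 1) * u) :=
      Nat.mul_le_mul hMlt.le hMlt.le
    have h2 : 2 ^ (s + 2) * 2 ^ (s + 2) ≤ (2 ^ (s + 2) * k) * (2 ^ (s + 2) * k) := by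
      apply Nat.mul_le_mul <;> exact Nat.le_mul_of_pos_right _ (by omega)
    have h3 : ((M + 1) * u) * ((M + 1) * u) ≤ (2 * 2 ^ j) * (2 * 2 ^ j) * (u * u) := by
      calc ((M + 1) * u) * ((M + 1) * u) = (M + 1) * (M + 1) * (u * u) := by ring
        _ ≤ (2 * 2 ^ j) * (2 * 2 ^ j) * (u * u) := Nat.mul_le_mul_right _ (Nat.mul_le_mul hM1 hM1)
    have h4 : 2 ^ (s + 2) * 2 ^ (s + 2) ≤ (2 * 2 ^ j) * (2 * 2 ^ j) * 2 ^ (s + 1) := by
      refine h2.trans (h1.trans (h3.trans (Nat.mul_le_mul_left _ huu.le)))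
    have h5 : 2 ^ (2 * s + 4) ≤ 2 ^ (2 * j + s + 3) := by
      calc 2 ^ (2 * s + 4) = 2 ^ (s + 2) * 2 ^ (s + 2) := by rw [← pow_add]; congr 1; ring
        _ ≤ _ := h4
        _ = 2 ^ (2 * j + s + 3) := by ring
    have h6 := (Nat.pow_le_pow_iff_right (by norm_num)).1 h5
    omega
  have hjlo' : (s + 1) / 2 ≤ j := by omega
  -- upper bound for `j`
  have hMup : M ≤ 8 * K * 2 ^ s := by
    have h1 : M * u ≤ 8 * K * 2 ^ s * u := by
      calc M * u ≤ 2 ^ (s + 2) * k := hMle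
        _ ≤ 2 ^ (s + 2) * (2 * K * u) := Nat.mul_le_mul_left _ hkK
        _ = 8 * K * 2 ^ s * u := by rw [hs2]; ring
    exact Nat.le_of_mul_le_mul_right h1 (by omega)
  have hjup : j ≤ 2 * s := by
    have h1 : 2 ^ j ≤ 2 ^ (2 * s) := by
      calc 2 ^ j ≤ 2 * M := hjM2
        _ ≤ 2 * (8 * K * 2 ^ s) := Nat.mul_le_mul_left _ hMup
        _ = 16 * K * 2 ^ s := by ring
        _ ≤ 2 ^ s * 2 ^ s := by
            apply Nat.mul_le_mul_right
            nlinarith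
        _ = 2 ^ (2 * s) := by rw [← pow_add]; congr 1; ring
    exact (Nat.pow_le_pow_iff_right (by norm_num)).1 h1
  have hLj := hL j hjlo' hjup
  -- the modulus is small
  have hk5 : k ^ 5 ≤ 2 ^ (3 * j) := by
    have h1 : 2 ^ (s + 1) * k ≤ 2 ^ j * u := by
      have h2 : 2 ^ (s + 2) * k ≤ 2 * (2 ^ j * u) := by
        calc 2 ^ (s + 2) * k ≤ (M + 1) * u := hMlt.le
          _ ≤ (2 * 2 ^ j) * u := Nat.mul_le_mul_right _ hM1
          _ = 2 * (2 ^ j * u) := by ring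
      have h3 : 2 ^ (s + 2) * k = 2 * (2 ^ (s + 1) * k) := by ring
      omega
    have h2 : 4 * K ^ 2 * u ^ 5 ≤ 2 ^ (3 * s + 3) := by
      rw [← Nat.pow_le_pow_iff_left (two_ne_zero)]
      calc (4 * K ^ 2 * u ^ 5) ^ 2 = 16 * K ^ 4 * (u * u) ^ 5 := by ring
        _ ≤ 2 ^ s * (2 ^ (s + 1)) ^ 5 := Nat.mul_le_mul hKs (Nat.pow_le_pow_left huu.le 5)
        _ = 2 ^ (6 * s + 5) := by rw [← pow_mul, ← pow_add]; congr 1; ring
        _ ≤ 2 ^ (6 * s + 6) := Nat.pow_le_pow_right (by norm_num) (by omega)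
        _ = (2 ^ (3 * s + 3)) ^ 2 := by rw [← pow_mul]; congr 1; ring
    have h3 : k ^ 5 * u ^ 3 ≤ 2 ^ (3 * j) * u ^ 3 := by
      calc k ^ 5 * u ^ 3 = k ^ 3 * u ^ 3 * (k * k) := by ring
        _ ≤ k ^ 3 * u ^ 3 * ((2 * K * u) * (2 * K * u)) :=
            Nat.mul_le_mul_left _ (Nat.mul_le_mul hkK hkK)
        _ = k ^ 3 * (4 * K ^ 2 * u ^ 5) := by ring
        _ ≤ k ^ 3 * 2 ^ (3 * s + 3) := Nat.mul_le_mul_left _ h2
        _ = (2 ^ (s + 1) * k) ^ 3 := by rw [mul_pow, ← pow_mul]; ring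
        _ ≤ (2 ^ j * u) ^ 3 := Nat.pow_le_pow_left h1 3
        _ = 2 ^ (3 * j) * u ^ 3 := by rw [mul_pow, ← pow_mul, mul_comm j 3]
    exact Nat.le_of_mul_le_mul_right h3 (pow_pos (by omega) 3)
  have hj0 : (0 : ℝ) < j := by
    have : 0 < j := by omega
    exact_mod_cast this
  have hjs : (s : ℝ) / 2 ≤ j := by
    have : (s : ℝ) ≤ 2 * j := by exact_mod_cast hjlo
    linarith
  have hV : ((Vu Bad s α β c v u).card : ℝ) ≤ 2 ^ j / (k * (j : ℝ) ^ A) ∨ ∃ δ ∈ D j, δ ∣ k := by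
    refine hLj.use k hk1 hk5 c hc (Vu Bad s α β c v u) (fun g => pval α β c v g u) ?_ ?_ ?_ ?_ ?_
    · intro g _ g' _ h
      unfold pval at h
      simp only at h
      have h2 : (α * u + β * v) * (g : ℤ) = (α * u + β * v) * g' := by linarith
      exact_mod_cast mul_left_cancel₀ hne h2
    · intro g hg
      exact (hmem g hg).1.2.2.2.2.2.2.1
    · intro g hg
      obtain ⟨⟨-, -, -, h4, h5, -⟩, h6⟩ := hmem g hg
      have h7 := hgK g h6 h4
      have h8 : (g * k + K) * u ≤ 2 ^ (s + 2) * k := by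
        have h9' : g ≤ g * k := Nat.le_mul_of_pos_right _ (by omega)
        have h9 : g * k + K ≤ 2 * (g * k) := by omega
        calc (g * k + K) * u ≤ 2 * (g * k) * u := Nat.mul_le_mul_right _ h9
          _ = 2 * k * (g * u) := by ring
          _ ≤ 2 * k * 2 ^ (s + 1) := Nat.mul_le_mul_left _ h5.le
          _ = 2 ^ (s + 2) * k := by rw [hs1, hs2]; ring
      have h9 : g * k + K ≤ M := by
        rw [hM]
        exact (Nat.le_div_iff_mul_le (by omega)).2 h8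
      have h10 : ((g * k + K : ℕ) : ℤ) ≤ ((2 ^ j : ℕ) : ℤ) := by exact_mod_cast h9.trans hjM
      push_cast at h10
      have h11 := le_of_abs_le hc
      change (g : ℤ) * (α * u + β * v) + c ≤ 2 ^ j
      rw [← hk]
      linarith
    · intro g _
      unfold pval
      apply Int.ModEq.symm
      rw [Int.modEq_iff_dvd, hk]
      refine ⟨g, ?_⟩
      ring
    · intro g hg
      exact (hmem g hg).1.2.2.2.2.2.2.2
  rcases hV with h | h
  · left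
    refine h.trans ?_
    have h1 : (2 : ℝ) ^ j * u ≤ 8 * 2 ^ s * k := by
      have h2 : 2 ^ j * u ≤ 8 * 2 ^ s * k := by
        calc 2 ^ j * u ≤ (2 * M) * u := Nat.mul_le_mul_right _ hjM2
          _ = 2 * (M * u) := by ring
          _ ≤ 2 * (2 ^ (s + 2) * k) := Nat.mul_le_mul_left _ hMle
          _ = 8 * 2 ^ s * k := by rw [hs2]; ring
      exact_mod_cast h2
    have h2 : (2 : ℝ) ^ j / (k * (j : ℝ) ^ A) ≤ 8 * 2 ^ s / (j : ℝ) ^ A * (1 / u) := by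
      rw [mul_one_div, div_div, div_le_div_iff₀ (by positivity) (by positivity)]
      have h3 : (0 : ℝ) ≤ (j : ℝ) ^ A := by positivity
      nlinarith
    refine h2.trans ?_
    apply mul_le_mul_of_nonneg_right _ (by positivity)
    apply div_le_div_of_nonneg_left (by positivity) (by positivity)
    exact pow_le_pow_left₀ (by positivity) hjs A
  · right
    obtain ⟨δ, hδ, hdvd⟩ := h
    refine ⟨hne, j, hjlo', hjup, δ, hδ, ?_⟩
    rw [← hk]
    exact_mod_cast hdvd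

end Run7.h702.DV
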