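import Pool.Agent.Run7.h702.DV.Pair

set_option autoImplicit false

namespace Run7.h702.DV

open Finset

open Classical in
/-- the pairs `(g, u)` -/
noncomputable def PP (Bad : ℕ → Prop) (s : ℕ) (α β c : ℤ) (v : ℕ) : Finset (ℕ × ℕ) :=
  (Icc 1 (2 ^ (s + 1)) ×ˢ Icc 1 (2 ^ (s + 1))).filter (fun p => Cd Bad s α β c v p.1 p.2)

theorem PP_card_le (Bad : ℕ → Prop) (s : ℕ) (α β c : ℤ) (v : ℕ) :
    (PP Bad s α β c v).card ≤ ∑ g ∈ Icc 1 (2 ^ (s + 1)), (Ug Bad s α β c v g).card +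
      ∑ u ∈ Icc 1 (2 ^ (s + 1)), (Vu Bad s α β c v u).card := by
  classical
  have hsub : PP Bad s α β c v ⊆
      ((Icc 1 (2 ^ (s + 1))).biUnion (fun g => (Ug Bad s α β c v g).image (fun u => (g, u)))) ∪
      ((Icc 1 (2 ^ (s + 1))).biUnion (fun u => (Vu Bad s α β c v u).image (fun g => (g, u)))) := by
    rintro ⟨g, u⟩ hp
    unfold PP at hp
    rw [mem_filter, mem_product] at hp
    obtain ⟨⟨h1, h2⟩, h3⟩ := hp
    simp only at h1 h2 h3
    rw [mem_union, mem_biUnion, mem_biUnion]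
    rcases le_or_gt g u with h | h
    · left
      refine ⟨g, h1, mem_image.2 ⟨u, ?_, rfl⟩⟩
      exact mem_filter.2 ⟨h2, h3, h⟩
    · right
      refine ⟨u, h2, mem_image.2 ⟨g, ?_, rfl⟩⟩
      exact mem_filter.2 ⟨h1, h3, h⟩
  refine (card_le_card hsub).trans ((card_union_le _ _).trans (Nat.add_le_add ?_ ?_))
  · exact card_biUnion_le.trans (sum_le_sum fun g _ => card_image_le)
  · exact card_biUnion_le.trans (sum_le_sum fun g _ => card_image_le)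

/-- the sum over `g` -/
theorem Ug_sum (Bad : ℕ → Prop) (s K A j : ℕ) (D : Finset ℕ) (α β c : ℤ) (v : ℕ)
    (hα : |α| ≤ K) (hβ : |β| ≤ K) (hc : |c| ≤ K) (hα0 : α ≠ 0) (hK : 1 ≤ K) (hs : 1 ≤ s)
    (hL : Lev Bad K A j D) (hj : 5 * K * 2 ^ s ≤ 2 ^ j) (hj' : (2 : ℝ) ^ j ≤ 10 * K * 2 ^ s) :
    ∑ g ∈ Icc 1 (2 ^ (s + 1)), ((Ug Bad s α β c v g).card : ℝ) ≤
      2 ^ s * ((10 * K + 4) / (s : ℝ) ^ A * Hm (2 * K * 2 ^ (s + 1))) := by
  classical
  have hs0 : (0 : ℝ) < s := by exact_mod_cast hs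
  have hsj : s ≤ j := by
    have h1 : 2 ^ s ≤ 2 ^ j := by nlinarith [Nat.one_le_two_pow (n := s)]
    exact (Nat.pow_le_pow_iff_right (by norm_num)).1 h1
  have hsj' : (s : ℝ) ≤ j := by exact_mod_cast hsj
  have hH0 := Hm_nonneg (2 * K * 2 ^ (s + 1))
  have hone : ∀ g ∈ Icc 1 (2 ^ (s + 1)), ((Ug Bad s α β c v g).card : ℝ) ≤
      10 * K * 2 ^ s / (s : ℝ) ^ A * (1 / g) +
        ∑ δ ∈ D, (if δ ∣ g then (2 : ℝ) ^ (s + 1) * (1 / g) else 0) := by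
    intro g hg
    have hg1 := (mem_Icc.1 hg).1
    have hg0 : (0 : ℝ) < g := by exact_mod_cast hg1
    have hs1 : 0 ≤ ∑ δ ∈ D, (if δ ∣ g then (2 : ℝ) ^ (s + 1) * (1 / g) else 0) :=
      sum_nonneg fun δ _ => by split_ifs <;> positivity
    have hp0 : 0 ≤ 10 * K * 2 ^ s / (s : ℝ) ^ A * (1 / (g : ℝ)) := by positivity
    rcases Ug_card Bad s K A j D α β c v g hα hβ hc hα0 hK hg1 hs hL hj hj' with h | ⟨δ, hδ, hdvd⟩
    · linarith
    · have h1 : ((Ug Bad s α β c v g).card : ℝ) ≤ 2 ^ (s + 1) * (1 / (g : ℝ)) := by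
        apply card_le_div s g hg1
        intro u hu
        have := (mem_filter.1 hu).2.1
        exact ⟨this.2.1, this.2.2.2.2.1⟩
      have h2 : (2 : ℝ) ^ (s + 1) * (1 / g) ≤ ∑ δ ∈ D, (if δ ∣ g then (2 : ℝ) ^ (s + 1) * (1 / g) else 0) := by
        have h4 : (if δ ∣ g then (2 : ℝ) ^ (s + 1) * (1 / g) else 0) ≤
            ∑ δ ∈ D, (if δ ∣ g then (2 : ℝ) ^ (s + 1) * (1 / g) else 0) :=
          single_le_sum (f := fun δ => if δ ∣ g then (2 : ℝ) ^ (s + 1) * (1 / (g : ℝ)) else 0)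
            (fun δ _ => by
              change (0 : ℝ) ≤ if δ ∣ g then (2 : ℝ) ^ (s + 1) * (1 / (g : ℝ)) else 0
              split_ifs <;> positivity) hδ
        rwa [if_pos hdvd] at h4
      linarith
  refine (sum_le_sum hone).trans ?_
  rw [sum_add_distrib, ← mul_sum, sum_comm]
  have h1 : ∑ g ∈ (Icc 1 (2 ^ (s + 1)) : Finset ℕ), (1 : ℝ) / g ≤ Hm (2 * K * 2 ^ (s + 1)) := by
    refine Hm_mono ?_
    nlinarith [Nat.one_le_two_pow (n := s + 1)]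
  have h2 : ∀ δ ∈ D, ∑ g ∈ (Icc 1 (2 ^ (s + 1)) : Finset ℕ), (if δ ∣ g then (2 : ℝ) ^ (s + 1) * (1 / g) else 0) ≤
      2 ^ (s + 1) * 2 * Hm (2 * K * 2 ^ (s + 1)) * (1 / δ) := by
    intro δ hδ
    have hδ1 := hL.pos δ hδ
    have hδ0 : (0 : ℝ) < δ := by exact_mod_cast hδ1
    rw [← sum_filter, ← mul_sum]
    have h4 := sparse_sum ((Icc 1 (2 ^ (s + 1))).filter (fun g => δ ∣ g)) (2 ^ (s + 1)) 1 δ le_rfl hδ1
      (fun u hu => (mem_Icc.1 (mem_filter.1 hu).1).2)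
      (fun u hu => by
        have h5 := Nat.le_of_dvd (mem_Icc.1 (mem_filter.1 hu).1).1 (mem_filter.1 hu).2
        omega)
      (fun u hu v hv huv => by
        have h5 := Nat.le_of_dvd (by omega) (Nat.dvd_sub (mem_filter.1 hv).2 (mem_filter.1 hu).2)
        omega)
    have h5 : Hm (2 * 1 * 2 ^ (s + 1)) ≤ Hm (2 * K * 2 ^ (s + 1)) :=
      Hm_mono (Nat.mul_le_mul_right _ (by omega))
    calc (2 : ℝ) ^ (s + 1) * ∑ g ∈ (Icc 1 (2 ^ (s + 1))).filter (fun g => δ ∣ g), (1 : ℝ) / g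
        ≤ 2 ^ (s + 1) * ((2 * ((1 : ℕ) : ℝ)) / δ * Hm (2 * K * 2 ^ (s + 1))) := by
          apply mul_le_mul_of_nonneg_left _ (by positivity)
          exact h4.trans (mul_le_mul_of_nonneg_left h5 (by positivity))
      _ = 2 ^ (s + 1) * 2 * Hm (2 * K * 2 ^ (s + 1)) * (1 / δ) := by push_cast; ring
  have h3 : (1 : ℝ) / (j : ℝ) ^ A ≤ 1 / (s : ℝ) ^ A :=
    one_div_le_one_div_of_le (by positivity) (pow_le_pow_left₀ hs0.le hsj' A)
  calc 10 * (K : ℝ) * 2 ^ s / (s : ℝ) ^ A * ∑ g ∈ (Icc 1 (2 ^ (s + 1)) : Finset ℕ), (1 : ℝ) / g +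
        ∑ δ ∈ D, ∑ g ∈ (Icc 1 (2 ^ (s + 1)) : Finset ℕ), (if δ ∣ g then (2 : ℝ) ^ (s + 1) * (1 / g) else 0)
      ≤ 10 * (K : ℝ) * 2 ^ s / (s : ℝ) ^ A * Hm (2 * K * 2 ^ (s + 1)) +
        2 ^ (s + 1) * 2 * Hm (2 * K * 2 ^ (s + 1)) * (1 / (s : ℝ) ^ A) := by
        apply add_le_add
        · exact mul_le_mul_of_nonneg_left h1 (by positivity)
        · refine (sum_le_sum h2).trans ?_
          rw [← mul_sum]
          exact mul_le_mul_of_nonneg_left (hL.sum.trans h3) (by positivity)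
    _ = 2 ^ s * ((10 * K + 4) / (s : ℝ) ^ A * Hm (2 * K * 2 ^ (s + 1))) := by
        rw [pow_succ]
        ring

/-- the sum over `u` -/
theorem Vu_sum (Bad : ℕ → Prop) (s K A : ℕ) (D : ℕ → Finset ℕ) (α β c : ℤ) (v : ℕ)
    (hα : |α| ≤ K) (hβ : |β| ≤ K) (hc : |c| ≤ K) (hα0 : α ≠ 0) (hK : 1 ≤ K) (hs : 1 ≤ s)
    (hL : ∀ j : ℕ, (s + 1) / 2 ≤ j → j ≤ 2 * s → Lev Bad K A j (D j)) (hKs : 16 * K ^ 4 ≤ 2 ^ s) :
    ∑ u ∈ Icc 1 (2 ^ (s + 1)), ((Vu Bad s α β c v u).card : ℝ) ≤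
      2 ^ s * ((8 + 8 * K * s) / ((s : ℝ) / 2) ^ A * Hm (2 * K * 2 ^ (s + 1))) := by
  classical
  have hs0 : (0 : ℝ) < s := by exact_mod_cast hs
  have hH0 := Hm_nonneg (2 * K * 2 ^ (s + 1))
  obtain ⟨J, hJ⟩ : ∃ J, J = Icc ((s + 1) / 2) (2 * s) := ⟨_, rfl⟩
  by_cases hvs : ∃ u, (Vu Bad s α β c v u).Nonempty
  swap
  · push Not at hvs
    have h0 : ∀ u, Vu Bad s α β c v u = ∅ := fun u => hvs u
    simp only [h0, card_empty, Nat.cast_zero, sum_const_zero]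
    positivity
  obtain ⟨S, hS⟩ : ∃ S : ℕ → Finset ℕ, S = fun δ : ℕ => (Icc 1 (2 ^ (s + 1))).filter
    (fun u : ℕ => v ≤ u ∧ (δ : ℤ) ∣ α * u + β * v ∧ α * u + β * v ≠ 0) := ⟨_, rfl⟩
  have hone : ∀ u ∈ Icc 1 (2 ^ (s + 1)), ((Vu Bad s α β c v u).card : ℝ) ≤
      8 * 2 ^ s / ((s : ℝ) / 2) ^ A * (1 / u) +
        ∑ j ∈ J, ∑ δ ∈ D j, (if u ∈ S δ then (2 : ℝ) ^ (s + 1) * (1 / u) else 0) := by
    intro u hu
    have hu1 := (mem_Icc.1 hu).1
    have hu0 : (0 : ℝ) < u := by exact_mod_cast hu1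
    have hs1 : ∀ j ∈ J, 0 ≤ ∑ δ ∈ D j, (if u ∈ S δ then (2 : ℝ) ^ (s + 1) * (1 / u) else 0) :=
      fun j _ => sum_nonneg fun δ _ => by split_ifs <;> positivity
    have hs2 := sum_nonneg hs1
    have hp0 : 0 ≤ 8 * 2 ^ s / ((s : ℝ) / 2) ^ A * (1 / (u : ℝ)) := by positivity
    rcases (Vu Bad s α β c v u).eq_empty_or_nonempty with he | ⟨g₀, hg₀⟩
    · rw [he, card_empty, Nat.cast_zero]
      linarith
    have hvu : v ≤ u := (mem_filter.1 hg₀).2.1.2.2.1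
    rcases Vu_card Bad s K A D α β c v u hα hβ hc hK hu1 hs hL hKs with h | ⟨hne, j, hj1, hj2, δ, hδ, hdvd⟩
    · linarith
    · have h1 : ((Vu Bad s α β c v u).card : ℝ) ≤ 2 ^ (s + 1) * (1 / (u : ℝ)) := by
        apply card_le_div s u hu1
        intro g hg
        have := (mem_filter.1 hg).2.1
        refine ⟨this.1, ?_⟩
        rw [mul_comm]
        exact this.2.2.2.2.1
      have h2 : (2 : ℝ) ^ (s + 1) * (1 / u) ≤
          ∑ δ ∈ D j, (if u ∈ S δ then (2 : ℝ) ^ (s + 1) * (1 / u) else 0) := by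
        have h4 : (if u ∈ S δ then (2 : ℝ) ^ (s + 1) * (1 / u) else 0) ≤
            ∑ δ ∈ D j, (if u ∈ S δ then (2 : ℝ) ^ (s + 1) * (1 / u) else 0) :=
          single_le_sum (f := fun δ => if u ∈ S δ then (2 : ℝ) ^ (s + 1) * (1 / (u : ℝ)) else 0)
            (fun δ _ => by
              change (0 : ℝ) ≤ if u ∈ S δ then (2 : ℝ) ^ (s + 1) * (1 / (u : ℝ)) else 0
              split_ifs <;> positivity) hδ
        rwa [if_pos (by rw [hS]; exact mem_filter.2 ⟨hu, hvu, hdvd, hne⟩)] at h4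
      have hjJ : j ∈ J := by
        rw [hJ, mem_Icc]
        exact ⟨hj1, hj2⟩
      have h3 := single_le_sum (f := fun j => ∑ δ ∈ D j, (if u ∈ S δ then (2 : ℝ) ^ (s + 1) * (1 / (u : ℝ)) else 0))
        hs1 hjJ
      linarith
  refine (sum_le_sum hone).trans ?_
  rw [sum_add_distrib, ← mul_sum, sum_comm]
  have h1 : ∑ g ∈ (Icc 1 (2 ^ (s + 1)) : Finset ℕ), (1 : ℝ) / g ≤ Hm (2 * K * 2 ^ (s + 1)) := by
    refine Hm_mono ?_
    nlinarith [Nat.one_le_two_pow (n := s + 1)]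
  have h2 : ∀ j ∈ J, ∑ u ∈ Icc 1 (2 ^ (s + 1)), ∑ δ ∈ D j, (if u ∈ S δ then (2 : ℝ) ^ (s + 1) * (1 / u) else 0) ≤
      2 ^ (s + 1) * (2 * K) * Hm (2 * K * 2 ^ (s + 1)) * (1 / ((s : ℝ) / 2) ^ A) := by
    intro j hj
    rw [hJ, mem_Icc] at hj
    have hLj := hL j hj.1 hj.2
    rw [sum_comm]
    have h3 : ∀ δ ∈ D j, ∑ u ∈ Icc 1 (2 ^ (s + 1)), (if u ∈ S δ then (2 : ℝ) ^ (s + 1) * (1 / u) else 0) ≤
        2 ^ (s + 1) * (2 * K) * Hm (2 * K * 2 ^ (s + 1)) * (1 / δ) := by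
      intro δ hδ
      have hδ1 := hLj.pos δ hδ
      have hδ0 : (0 : ℝ) < δ := by exact_mod_cast hδ1
      rw [← sum_filter, ← mul_sum]
      have hmem : ∀ u ∈ (Icc 1 (2 ^ (s + 1))).filter (fun u => u ∈ S δ), 1 ≤ u ∧ u ≤ 2 ^ (s + 1) ∧ v ≤ u ∧
          (δ : ℤ) ∣ α * u + β * v ∧ α * u + β * v ≠ 0 := by
        intro u hu
        have h5 := (mem_filter.1 hu).2
        rw [hS] at h5
        have h6 := mem_filter.1 h5
        have h7 := mem_Icc.1 h6.1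
        exact ⟨h7.1, h7.2, h6.2.1, h6.2.2.1, h6.2.2.2⟩
      have h4 := sparse_sum ((Icc 1 (2 ^ (s + 1))).filter (fun u => u ∈ S δ)) (2 ^ (s + 1)) K δ hK hδ1
        (fun u hu => (hmem u hu).2.1)
        (fun u hu => by
          obtain ⟨-, -, h7, h8, h9⟩ := hmem u hu
          have h10 : δ ≤ (α * u + β * v).natAbs :=
            Nat.le_of_dvd (Int.natAbs_pos.2 h9) (Int.natCast_dvd.1 h8)
          have h11 : (((α * u + β * v).natAbs : ℕ) : ℤ) ≤ ((2 * K * u : ℕ) : ℤ) := by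
            rw [Int.natCast_natAbs]
            push_cast
            exact lin_le hα hβ h7
          exact h10.trans (by exact_mod_cast h11))
        (fun u hu w hw huw => by
          obtain ⟨-, -, -, h8, -⟩ := hmem u hu
          obtain ⟨-, -, -, h8', -⟩ := hmem w hw
          have h9 : (δ : ℤ) ∣ α * ((w - u : ℕ) : ℤ) := by
            have h10 := dvd_sub h8' h8
            have h11 : α * w + β * v - (α * u + β * v) = α * ((w - u : ℕ) : ℤ) := by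
              rw [Nat.cast_sub huw.le]
              ring
            rw [h11] at h10
            exact h10
          have h12 : α * ((w - u : ℕ) : ℤ) ≠ 0 := mul_ne_zero hα0 (by
            have : w - u ≠ 0 := by omega
            exact_mod_cast this)
          have h13 : δ ≤ (α * ((w - u : ℕ) : ℤ)).natAbs :=
            Nat.le_of_dvd (Int.natAbs_pos.2 h12) (Int.natCast_dvd.1 h9)
          rw [Int.natAbs_mul, Int.natAbs_natCast] at h13
          refine h13.trans (Nat.mul_le_mul_right _ ?_)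
          have h14 : ((α.natAbs : ℕ) : ℤ) ≤ K := by
            rw [Int.natCast_natAbs]
            exact hα
          exact_mod_cast h14)
      calc (2 : ℝ) ^ (s + 1) * ∑ u ∈ (Icc 1 (2 ^ (s + 1))).filter (fun u => u ∈ S δ), (1 : ℝ) / u
          ≤ 2 ^ (s + 1) * ((2 * (K : ℝ)) / δ * Hm (2 * K * 2 ^ (s + 1))) :=
            mul_le_mul_of_nonneg_left h4 (by positivity)
        _ = 2 ^ (s + 1) * (2 * K) * Hm (2 * K * 2 ^ (s + 1)) * (1 / δ) := by ring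
    refine (sum_le_sum h3).trans ?_
    rw [← mul_sum]
    apply mul_le_mul_of_nonneg_left _ (by positivity)
    refine hLj.sum.trans ?_
    apply one_div_le_one_div_of_le (by positivity)
    apply pow_le_pow_left₀ (by positivity)
    have : (s : ℝ) ≤ 2 * j := by exact_mod_cast (by omega : s ≤ 2 * j)
    linarith
  have hJcard : (J.card : ℝ) ≤ 2 * s := by
    rw [hJ, Nat.card_Icc]
    have : 2 * s + 1 - (s + 1) / 2 ≤ 2 * s := by omega
    exact_mod_cast this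
  calc 8 * 2 ^ s / ((s : ℝ) / 2) ^ A * ∑ u ∈ (Icc 1 (2 ^ (s + 1)) : Finset ℕ), (1 : ℝ) / u +
        ∑ j ∈ J, ∑ u ∈ Icc 1 (2 ^ (s + 1)), ∑ δ ∈ D j, (if u ∈ S δ then (2 : ℝ) ^ (s + 1) * (1 / u) else 0)
      ≤ 8 * 2 ^ s / ((s : ℝ) / 2) ^ A * Hm (2 * K * 2 ^ (s + 1)) +
        (2 * s) * (2 ^ (s + 1) * (2 * K) * Hm (2 * K * 2 ^ (s + 1)) * (1 / ((s : ℝ) / 2) ^ A)) := by
        apply add_le_add
        · exact mul_le_mul_of_nonneg_left h1 (by positivity)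
        · refine (sum_le_sum h2).trans ?_
          rw [sum_const, nsmul_eq_mul]
          exact mul_le_mul_of_nonneg_right hJcard (by positivity)
    _ = 2 ^ s * ((8 + 8 * K * s) / ((s : ℝ) / 2) ^ A * Hm (2 * K * 2 ^ (s + 1))) := by
        rw [pow_succ]
        ring

end Run7.h702.DV
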